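import Pool.Agent.H6.HR.Box

/-!
# Covering an interval by residue classes, uniformly in the lower end of the sieving range
-/

set_option autoImplicit false

open Finset Pool.Agent.H6.HR

namespace Pool.Agent.H84.HR

noncomputable section

theorem prod_le_unif : ∃ C : ℝ, 0 < C ∧ ∀ z w : ℕ, 2 ≤ z → z ≤ w →
    ∏ p ∈ (P w).filter (fun p => z < p), (1 - 1 / (p : ℝ)) ≤ C * Real.log z / Real.log w := by
  obtain ⟨C, hC, h⟩ := sum_recip_ge
  have hl2 : 0 < Real.log 2 := Real.log_pos (by norm_num)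
  refine ⟨Real.exp (C / Real.log 2), Real.exp_pos _, ?_⟩
  intro z w hz hzw
  have hlz : 0 < Real.log z := Real.log_pos (by exact_mod_cast (by omega : 1 < z))
  have hlw : 0 < Real.log w := Real.log_pos (by exact_mod_cast (by omega : 1 < w))
  have hlz2 : Real.log 2 ≤ Real.log z := Real.log_le_log (by norm_num) (by exact_mod_cast hz)
  have h1 : ∏ p ∈ (P w).filter (fun p => z < p), (1 - 1 / (p : ℝ)) ≤
      Real.exp (-∑ p ∈ (P w).filter (fun p => z < p), 1 / (p : ℝ)) := by
    rw [← Finset.sum_neg_distrib, Real.exp_sum]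
    apply Finset.prod_le_prod
    · intro p _; exact one_sub_inv_nonneg p
    · intro p _
      have := Real.add_one_le_exp (-(1 / (p : ℝ)))
      linarith
  refine h1.trans ?_
  have h2 := h z w hz hzw
  have h3 : C / Real.log z ≤ C / Real.log 2 := div_le_div_of_nonneg_left hC hl2 hlz2
  have h4 : Real.exp (C / Real.log 2) * Real.log z / Real.log w =
      Real.exp (C / Real.log 2 - Real.log (Real.log w / Real.log z)) := by
    rw [Real.exp_sub, Real.exp_log (by positivity)]
    field_simp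
  rw [h4]
  apply Real.exp_le_exp.mpr
  linarith

/-- Residue classes modulo the primes in `(z, w1]` that cover nearly all of `[0, J)`. -/
theorem cover : ∃ C : ℝ, 0 < C ∧ ∀ z w3 w1 J : ℕ, 2 ≤ z → z ≤ w3 → w3 ≤ w1 → 1 ≤ J →
    ∃ h : ℕ → ℕ, (((range J).filter (fun j => ∀ p ∈ P w1, z < p → ¬ j ≡ h p [MOD p])).card : ℝ) ≤
      C * Real.log z / Real.log w3 * (1 + √J + J * (Real.log w3) ^ 3 *
        (3 / 4 : ℝ) ^ (Real.log J / (2 * Real.log w3)) + J / Real.log w1 * (1 + Real.log (1 + J / w1))) := by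
  obtain ⟨C1, hC1, hsm⟩ := smooth_le
  obtain ⟨C2, hC2, hlf⟩ := card_large_factor
  obtain ⟨C3, hC3, hpl⟩ := prod_le_unif
  refine ⟨C3 * (1 + C1 + C2), by positivity, ?_⟩
  intro z w3 w1 J hz2 hz hw31 hJ
  have hw3 : 2 ≤ w3 := hz2.trans hz
  have hlz : 0 < Real.log z := Real.log_pos (by exact_mod_cast (by omega : 1 < z))
  have hlw3 : 0 < Real.log w3 := Real.log_pos (by exact_mod_cast (by omega : 1 < w3))
  have hlw1 : 0 < Real.log w1 := Real.log_pos (by exact_mod_cast (by omega : 1 < w1))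
  set R0 := (range J).filter (fun j => ∀ p ∈ P w1, w3 < p → ¬ p ∣ j) with hR0
  obtain ⟨g, hg⟩ := exists_classes_large R0 ((P w3).filter (fun p => z < p))
    (fun p hp => (mem_P.mp (Finset.mem_filter.mp hp).1).1.pos)
  refine ⟨fun p => if p ≤ w3 then g p else 0, ?_⟩
  have hsub : (range J).filter (fun j => ∀ p ∈ P w1, z < p → ¬ j ≡ (if p ≤ w3 then g p else 0) [MOD p]) ⊆
      R0.filter (fun j => ∀ p ∈ (P w3).filter (fun p => z < p), ¬ j ≡ g p [MOD p]) := by
    intro j hj
    rw [Finset.mem_filter] at hj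
    rw [Finset.mem_filter, hR0, Finset.mem_filter]
    refine ⟨⟨hj.1, ?_⟩, ?_⟩
    · intro p hp hwp hpj
      have := hj.2 p hp (by omega)
      rw [if_neg (by omega)] at this
      exact this (Nat.modEq_zero_iff_dvd.mpr hpj)
    · intro p hp
      rw [Finset.mem_filter, mem_P] at hp
      have := hj.2 p (mem_P.mpr ⟨hp.1.1, by omega⟩) hp.2
      rwa [if_pos hp.1.2] at this
  have h1 : (((range J).filter (fun j => ∀ p ∈ P w1, z < p →
      ¬ j ≡ (if p ≤ w3 then g p else 0) [MOD p])).card : ℝ) ≤ C3 * Real.log z / Real.log w3 * R0.card := by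
    calc _ ≤ ((R0.filter (fun j => ∀ p ∈ (P w3).filter (fun p => z < p), ¬ j ≡ g p [MOD p])).card : ℝ) := by
          exact_mod_cast Finset.card_le_card hsub
      _ ≤ _ := hg
      _ ≤ _ := by
          apply mul_le_mul_of_nonneg_right (hpl z w3 hz2 hz)
          positivity
  refine h1.trans ?_
  have h2 : R0 ⊆ ({0} ∪ (Finset.Icc 1 J).filter (fun n => ∀ p ∈ n.primeFactors, p ≤ w3)) ∪
      (range J).filter (fun j => j ≠ 0 ∧ ∃ p ∈ j.primeFactors, w1 < p) := by
    intro j hj
    rw [hR0, Finset.mem_filter, Finset.mem_range] at hj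
    rw [Finset.mem_union, Finset.mem_union, Finset.mem_singleton, Finset.mem_filter, Finset.mem_Icc,
      Finset.mem_filter, Finset.mem_range]
    by_cases hj0 : j = 0
    · exact Or.inl (Or.inl hj0)
    · by_cases hl : ∃ p ∈ j.primeFactors, w1 < p
      · exact Or.inr ⟨hj.1, hj0, hl⟩
      · push Not at hl
        refine Or.inl (Or.inr ⟨⟨by omega, by omega⟩, ?_⟩)
        intro p hp
        by_contra hcon
        have hpp := Nat.prime_of_mem_primeFactors hp
        exact hj.2 p (mem_P.mpr ⟨hpp, hl p hp⟩) (by omega) (Nat.dvd_of_mem_primeFactors hp)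
  have h3 : (R0.card : ℝ) ≤ 1 + (((Finset.Icc 1 J).filter (fun n => ∀ p ∈ n.primeFactors, p ≤ w3)).card : ℝ) +
      (((range J).filter (fun j => j ≠ 0 ∧ ∃ p ∈ j.primeFactors, w1 < p)).card : ℝ) := by
    have h4 := (Finset.card_le_card h2).trans (Finset.card_union_le _ _)
    have h5 := Finset.card_union_le {0} ((Finset.Icc 1 J).filter (fun n => ∀ p ∈ n.primeFactors, p ≤ w3))
    rw [Finset.card_singleton] at h5
    exact_mod_cast h4.trans (Nat.add_le_add_right h5 _)
  have h4 := hsm w3 J hw3 hJ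
  have h5 := hlf w1 J (by omega)
  have h6 : (R0.card : ℝ) ≤ (1 + C1 + C2) * (1 + √J + J * (Real.log w3) ^ 3 *
      (3 / 4 : ℝ) ^ (Real.log J / (2 * Real.log w3)) + J / Real.log w1 * (1 + Real.log (1 + J / w1))) := by
    have e1 : 0 ≤ √(J : ℝ) := Real.sqrt_nonneg _
    have e2 : 0 ≤ (J : ℝ) * (Real.log w3) ^ 3 * (3 / 4 : ℝ) ^ (Real.log J / (2 * Real.log w3)) := by
      positivity
    have e3 : 0 ≤ (J : ℝ) / Real.log w1 * (1 + Real.log (1 + J / w1)) := by
      have : 0 ≤ Real.log (1 + (J : ℝ) / w1) := Real.log_nonneg (by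
        have : (0 : ℝ) ≤ (J : ℝ) / w1 := by positivity
        linarith)
      positivity
    have e4 : C1 * J * (Real.log w3) ^ 3 * (3 / 4 : ℝ) ^ (Real.log J / (2 * Real.log w3)) =
      C1 * (J * (Real.log w3) ^ 3 * (3 / 4 : ℝ) ^ (Real.log J / (2 * Real.log w3))) := by ring
    have e5 : C2 * J / Real.log w1 * (1 + Real.log (1 + J / w1)) =
      C2 * (J / Real.log w1 * (1 + Real.log (1 + J / w1))) := by ring
    rw [e4] at h4
    rw [e5] at h5
    set X1 := √(J : ℝ)
    set X2 := (J : ℝ) * (Real.log w3) ^ 3 * (3 / 4 : ℝ) ^ (Real.log J / (2 * Real.log w3))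
    set X3 := (J : ℝ) / Real.log w1 * (1 + Real.log (1 + J / w1))
    have e6 : 0 ≤ C1 * X1 := by positivity
    have e7 : 0 ≤ C1 * X3 := by positivity
    have e8 : 0 ≤ C2 * X1 := by positivity
    have e9 : 0 ≤ C2 * X2 := by positivity
    nlinarith
  calc C3 * Real.log z / Real.log w3 * R0.card ≤ C3 * Real.log z / Real.log w3 *
      ((1 + C1 + C2) * (1 + √J + J * (Real.log w3) ^ 3 *
      (3 / 4 : ℝ) ^ (Real.log J / (2 * Real.log w3)) + J / Real.log w1 * (1 + Real.log (1 + J / w1)))) :=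
        mul_le_mul_of_nonneg_left h6 (by positivity)
    _ = _ := by ring

/-- Logarithmic mean over the box with exponents at most `V`. -/
theorem sum_wt_log {Q : Finset ℕ} (hQ : ∀ w ∈ Q, w.Prime) (V : ℕ) (hV : 1 ≤ V) :
    (∑ m ∈ box Q V, wt Q m) * ∑ w ∈ Q, Real.log w / w ≤ ∑ m ∈ box Q V, wt Q m * Real.log m := by
  classical
  induction Q using Finset.induction_on with
  | empty => simp [Pool.Agent.H6.HR.box, wt]
  | insert w Q hwQ ih =>
    have hw := hQ w (Finset.mem_insert_self _ _)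
    have hw2 : (2 : ℝ) ≤ w := by exact_mod_cast hw.two_le
    have hQ' : ∀ w ∈ Q, w.Prime := fun w' hw' => hQ w' (Finset.mem_insert_of_mem hw')
    have ih' := ih hQ'
    have h1 := sum_box_insert V hw hQ' hwQ (fun _ => 1)
    have h2 := sum_box_insert V hw hQ' hwQ (fun m => Real.log m)
    simp only [mul_one] at h1
    rw [h1, h2, Finset.sum_insert hwQ]
    have h3 : ∀ v : ℕ, ∑ e ∈ box Q V, wt Q e * Real.log ((w ^ v * e : ℕ) : ℝ) =
        v * Real.log w * (∑ e ∈ box Q V, wt Q e) + ∑ e ∈ box Q V, wt Q e * Real.log e := by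
      intro v
      rw [Finset.mul_sum, ← Finset.sum_add_distrib]
      apply Finset.sum_congr rfl
      intro e he
      have he0 := (box_mem hQ' he).1
      push_cast
      rw [Real.log_mul (by positivity) (by exact_mod_cast he0), Real.log_pow]
      ring
    simp only [h3]
    have hS0 : 0 ≤ ∑ e ∈ box Q V, wt Q e := Finset.sum_nonneg (fun e _ => wt_nonneg hQ' e)
    have hZ0 : 0 ≤ ∑ w ∈ Q, Real.log w / (w : ℝ) := Finset.sum_nonneg (fun w hw' =>
      div_nonneg (Real.log_nonneg (by exact_mod_cast (hQ' w hw').one_le)) (by positivity))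
    set S := ∑ e ∈ box Q V, wt Q e with hS
    set L := ∑ e ∈ box Q V, wt Q e * Real.log e with hL
    set Z := ∑ w ∈ Q, Real.log w / (w : ℝ) with hZ
    have hlog : 0 ≤ Real.log w := Real.log_nonneg (by linarith)
    have hc0 : 0 ≤ ∑ v ∈ range (V + 1), cf w v := Finset.sum_nonneg (fun v _ => cf_nonneg hw.two_le v)
    have hc1 : ∑ v ∈ range (V + 1), cf w v ≤ 1 := by
      rw [sum_cf hw.two_le V]
      have := (coeff_le hw.two_le V).1
      linarith
    have e1 : ∑ v ∈ range (V + 1), cf w v * ∑ e ∈ box Q V, wt Q e = (∑ v ∈ range (V + 1), cf w v) * S := by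
      rw [Finset.sum_mul]
    have e2 : ∑ v ∈ range (V + 1), cf w v * ((v : ℝ) * Real.log w * S + L) =
        (∑ v ∈ range (V + 1), cf w v * v) * (Real.log w * S) + (∑ v ∈ range (V + 1), cf w v) * L := by
      rw [Finset.sum_mul, Finset.sum_mul, ← Finset.sum_add_distrib]
      apply Finset.sum_congr rfl
      intro v _
      ring
    have e3 : 1 / (w : ℝ) ≤ ∑ v ∈ range (V + 1), cf w v * v := by
      have h4 := Finset.single_le_sum (f := fun v : ℕ => cf w v * (v : ℝ)) (s := range (V + 1))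
        (fun v _ => mul_nonneg (cf_nonneg hw.two_le v) (by positivity)) (show 1 ∈ range (V + 1) by
          rw [Finset.mem_range]; omega)
      refine le_trans (le_of_eq ?_) h4
      simp [cf]
    rw [e1, e2]
    have h5 : (∑ v ∈ range (V + 1), cf w v) * (S * Z) ≤ (∑ v ∈ range (V + 1), cf w v) * L :=
      mul_le_mul_of_nonneg_left ih' hc0
    have h6 : (∑ v ∈ range (V + 1), cf w v) * (S * (Real.log w / w)) ≤ 1 * (S * (Real.log w / w)) :=
      mul_le_mul_of_nonneg_right hc1 (by positivity)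
    have h7 : 1 / (w : ℝ) * (Real.log w * S) ≤ (∑ v ∈ range (V + 1), cf w v * v) * (Real.log w * S) :=
      mul_le_mul_of_nonneg_right e3 (by positivity)
    have e4 : 1 / (w : ℝ) * (Real.log w * S) = S * (Real.log w / w) := by ring
    rw [e4] at h7
    nlinarith

end

end Pool.Agent.H84.HR
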