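import Pool.Agent.H84.HR.Params
import Pool.Agent.H6.HR.Loss

/-!
# The loss caused by the large primes, uniformly in the sieving limit
-/

set_option autoImplicit false

open Finset Filter Topology Pool.Agent.H6.HR

namespace Pool.Agent.H84.HR

noncomputable section

theorem NN_up {x : ℝ} (hx0 : 0 < x) : 2 * (NN x : ℝ) ≤ x := by
  unfold NN
  have h1 : 0 < ⌈x / 2⌉₊ := Nat.ceil_pos.mpr (by linarith)
  have h2 := Nat.ceil_lt_add_one (show 0 ≤ x / 2 by linarith)
  rw [Nat.cast_sub h1]
  push_cast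
  linarith

theorem NN_low {x : ℝ} (hx0 : 0 < x) : x - 2 ≤ 2 * (NN x : ℝ) := by
  unfold NN
  have h1 : 0 < ⌈x / 2⌉₊ := Nat.ceil_pos.mpr (by linarith)
  have h2 := Nat.le_ceil (x / 2)
  rw [Nat.cast_sub h1]
  push_cast
  linarith

theorem Lm_ge {lam : ℝ} (h : 1 ≤ lam) : 1 ≤ Lm lam := by
  unfold Lm
  have : 0 ≤ Real.log (1 + 12 * lam) := Real.log_nonneg (by linarith)
  linarith

theorem loss_one : ∃ C : ℝ, 0 < C ∧ ∀ (z : ℕ) (β lam x : ℝ), Facts1 z β lam x → ∀ T : Finset ℤ,
    (∀ n ∈ T, -(NN x : ℤ) ≤ n ∧ n ≤ NN x) → (∀ n ∈ T, ∀ p ∈ P (y1 lam x), z < p → ¬ (p : ℤ) ∣ n) →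
    ∀ q : ℕ, q.Prime → y1 lam x < q → q ≤ KK x →
      ∃ a : ℤ, ((T.filter (fun n => (q : ℤ) ∣ n - a)).card : ℝ) ≤
        C * Real.log z * (x * Lm lam / ((LL x) ^ β * Real.log x)) * (1 / q) := by
  obtain ⟨C1, hC1, hcov⟩ := cover
  obtain ⟨c2, hc2, hpg⟩ := prod_ge
  refine ⟨600 * C1 * 2 / c2 * 10, by positivity, ?_⟩
  intro z β lam x F T hTN hT q hq hyq hqK
  have hL := F.L100
  have hL0 : 0 < Real.log x := by linarith
  have hx0 : 0 < x := by linarith [F.x4]
  have hexpL : Real.exp (Real.log x) = x := Real.exp_log hx0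
  have hv0 : 0 < LL x := by linarith [F.v4]
  have hlam1 := F.lam1
  have hlam0 : 0 < lam := by linarith
  have hlz : 0 < Real.log z := Real.log_pos (by
    have := F.z2
    exact_mod_cast (by omega : 1 < z))
  set s := (LL x) ^ β with hs
  have hs0 : 0 < s := by rw [hs]; positivity
  have hq0 : (0 : ℝ) < q := by exact_mod_cast hq.pos
  have hqy : (y1 lam x : ℝ) ≤ q := by exact_mod_cast hyq.le
  have hqK' : (q : ℝ) ≤ 8 * x / Real.log x :=
    le_trans (by exact_mod_cast hqK) (Nat.floor_le (by positivity))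
  -- the number of positions
  set J := 2 * NN x / q + 1 with hJ
  have hNup := NN_up hx0
  have hNlow := NN_low hx0
  have hxq : 1 ≤ x / q := by
    rw [le_div_iff₀ hq0, one_mul]
    refine hqK'.trans ?_
    rw [div_le_iff₀ hL0]
    nlinarith
  have hJup : (J : ℝ) ≤ 2 * (x / q) := by
    rw [hJ]
    push_cast
    have h1 : ((2 * NN x / q : ℕ) : ℝ) ≤ (2 * NN x : ℕ) / (q : ℝ) := Nat.cast_div_le
    push_cast at h1
    have h2 : 2 * (NN x : ℝ) / q ≤ x / q := by gcongr
    linarith
  have hJlow : Real.log x / 16 ≤ (J : ℝ) := by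
    have h1 : 2 * (NN x : ℝ) / q ≤ J := by
      rw [div_le_iff₀ hq0]
      have h2 : 2 * NN x < (2 * NN x / q + 1) * q := by
        have := Nat.lt_div_mul_add hq.pos (a := 2 * NN x)
        rw [add_mul, one_mul]
        exact this
      exact_mod_cast h2.le
    refine le_trans ?_ h1
    rw [le_div_iff₀ hq0]
    calc Real.log x / 16 * q ≤ Real.log x / 16 * (8 * x / Real.log x) := by
          apply mul_le_mul_of_nonneg_left hqK'
          positivity
      _ = x / 2 := by field_simp; ring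
      _ ≤ 2 * (NN x : ℝ) := by linarith [F.x4]
  have hJ1 : 1 ≤ J := Nat.le_add_left 1 _
  have hJ0 : (0 : ℝ) < J := by exact_mod_cast hJ1
  have hlamL0 : 0 < lam * Real.log x := by positivity
  have hJup2 : (J : ℝ) ≤ 2 * (lam * Real.log x) := by
    refine hJup.trans ?_
    have h1 : x / q ≤ lam * Real.log x := by
      rw [div_le_iff₀ hq0]
      have h2 : x / (lam * Real.log x) ≤ q := (Nat.le_ceil _).trans hqy
      rw [div_le_iff₀ hlamL0] at h2
      linarith
    linarith
  obtain ⟨h, hh⟩ := hcov z (w31 β x) (ww x) J F.z2 F.zw3 F.w3w hJ1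
  set R := (range J).filter (fun j => ∀ p ∈ P (ww x), z < p → ¬ j ≡ h p [MOD p]) with hR
  -- bound for `R`
  have hlw3 : 0 < Real.log (w31 β x) := lt_of_lt_of_le (by positivity) F.lw3
  have hlww : 0 < Real.log (ww x) := lt_of_lt_of_le (by positivity) F.lw
  have hLam1 : 1 ≤ Lm lam := Lm_ge hlam1
  have hlogJ : LL x / 2 ≤ Real.log J := by
    have h1 : √(Real.log x) ≤ J := by
      refine le_trans ?_ hJlow
      have h2 : 16 ≤ √(Real.log x) := by
        have := F.v_sqrt
        have := F.v4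
        linarith
      have h3 : √(Real.log x) * √(Real.log x) = Real.log x := Real.mul_self_sqrt hL0.le
      nlinarith
    rw [show LL x / 2 = Real.log (√(Real.log x)) from (Real.log_sqrt hL0.le).symm]
    exact Real.log_le_log (Real.sqrt_pos.mpr hL0) h1
  have hb1 : 1 + √(J : ℝ) ≤ 2 * (J / LL x) := by
    have h1 : LL x ≤ √(J : ℝ) := by
      apply Real.le_sqrt_of_sq_le
      have h2 := F.v_sqrt
      have h3 : √(Real.log x) * √(Real.log x) = Real.log x := Real.mul_self_sqrt hL0.le
      nlinarith [Real.sqrt_nonneg (Real.log x)]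
    have h2 : √(J : ℝ) * √(J : ℝ) = J := Real.mul_self_sqrt hJ0.le
    have h3 : 1 ≤ √(J : ℝ) := by
      rw [show (1 : ℝ) = √1 by rw [Real.sqrt_one]]
      exact Real.sqrt_le_sqrt (by exact_mod_cast hJ1)
    have h4 : √(J : ℝ) ≤ J / LL x := by
      rw [le_div_iff₀ hv0]
      nlinarith
    linarith
  have hb2 : (J : ℝ) * (Real.log (w31 β x)) ^ 3 * (3 / 4 : ℝ) ^ (Real.log J / (2 * Real.log (w31 β x))) ≤
      J / LL x := by
    have h1 : (LL x) ^ (1 - β) / 4 ≤ Real.log J / (2 * Real.log (w31 β x)) := by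
      rw [le_div_iff₀ (by positivity)]
      have h2 := F.lw3'
      have h3 : (LL x) ^ (1 - β) * s = LL x := by
        rw [hs, ← Real.rpow_add hv0]
        simp
      have h4 : 0 < (LL x) ^ (1 - β) := by positivity
      calc (LL x) ^ (1 - β) / 4 * (2 * Real.log (w31 β x)) ≤ (LL x) ^ (1 - β) / 4 * (2 * s) := by
            apply mul_le_mul_of_nonneg_left _ (by positivity)
            linarith
        _ = (LL x) ^ (1 - β) * s / 2 := by ring
        _ = LL x / 2 := by rw [h3]
        _ ≤ Real.log J := hlogJ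
    have h2 : (3 / 4 : ℝ) ^ (Real.log J / (2 * Real.log (w31 β x))) ≤ (3 / 4 : ℝ) ^ ((LL x) ^ (1 - β) / 4) :=
      Real.rpow_le_rpow_of_exponent_ge (by norm_num) (by norm_num) h1
    have h3 : (Real.log (w31 β x)) ^ 3 ≤ (LL x) ^ 3 := pow_le_pow_left₀ hlw3.le (F.lw3'.trans F.sv) 3
    have h4 : (Real.log (w31 β x)) ^ 3 * (3 / 4 : ℝ) ^ (Real.log J / (2 * Real.log (w31 β x))) ≤
        (LL x) ^ 3 * (3 / 4 : ℝ) ^ ((LL x) ^ (1 - β) / 4) :=
      mul_le_mul h3 h2 (by positivity) (by positivity)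
    have h5 : (LL x) ^ 3 * (3 / 4 : ℝ) ^ ((LL x) ^ (1 - β) / 4) ≤ 1 / LL x := by
      rw [le_div_iff₀ hv0]
      have h6 := F.decay
      calc (LL x) ^ 3 * (3 / 4 : ℝ) ^ ((LL x) ^ (1 - β) / 4) * LL x =
          (LL x) ^ 4 * (3 / 4 : ℝ) ^ ((LL x) ^ (1 - β) / 4) := by ring
        _ ≤ 1 := h6
    calc _ = (J : ℝ) * ((Real.log (w31 β x)) ^ 3 * (3 / 4 : ℝ) ^ (Real.log J / (2 * Real.log (w31 β x)))) := by ring
      _ ≤ (J : ℝ) * (1 / LL x) := mul_le_mul_of_nonneg_left (h4.trans h5) hJ0.le
      _ = _ := by ring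
  have hb3 : (J : ℝ) / Real.log (ww x) * (1 + Real.log (1 + J / ww x)) ≤ 2 * (J / LL x) * Lm lam := by
    have hw0 : (0 : ℝ) < ww x := by
      have := F.w6
      linarith
    have h1 : (J : ℝ) / Real.log (ww x) ≤ 2 * (J / LL x) := by
      rw [div_le_iff₀ hlww]
      have h2 := F.lw
      calc (J : ℝ) = 2 * (J / LL x) * (LL x / 2) := by field_simp
        _ ≤ _ := mul_le_mul_of_nonneg_left h2 (by positivity)
    have h2 : (J : ℝ) / ww x ≤ 12 * lam := by
      rw [div_le_iff₀ hw0]
      have h3 := F.w6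
      calc (J : ℝ) ≤ 2 * (lam * Real.log x) := hJup2
        _ = 12 * lam * (Real.log x / 6) := by ring
        _ ≤ _ := mul_le_mul_of_nonneg_left h3 (by positivity)
    have h3 : 1 + Real.log (1 + J / ww x) ≤ Lm lam := by
      unfold Lm
      have : Real.log (1 + J / ww x) ≤ Real.log (1 + 12 * lam) := by
        apply Real.log_le_log (by positivity)
        linarith
      linarith
    apply mul_le_mul h1 h3 _ (by positivity)
    have : 0 ≤ Real.log (1 + (J : ℝ) / ww x) := Real.log_nonneg (by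
      have : (0 : ℝ) ≤ (J : ℝ) / ww x := by positivity
      linarith)
    linarith
  have hRle : (R.card : ℝ) ≤ 10 * C1 * Real.log z * (J * Lm lam / (s * LL x)) := by
    refine hh.trans ?_
    have h1 : C1 * Real.log z / Real.log (w31 β x) ≤ 2 * (C1 * Real.log z) / s := by
      rw [div_le_div_iff₀ hlw3 hs0]
      have := F.lw3
      have h7 : 0 < C1 * Real.log z := by positivity
      nlinarith
    have h2 : 1 + √(J : ℝ) + J * (Real.log (w31 β x)) ^ 3 *
        (3 / 4 : ℝ) ^ (Real.log J / (2 * Real.log (w31 β x)))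
        + J / Real.log (ww x) * (1 + Real.log (1 + J / ww x)) ≤ 5 * (J / LL x) * Lm lam := by
      have h3 : 0 ≤ (J : ℝ) / LL x := by positivity
      nlinarith
    have h3 : 0 ≤ 1 + √(J : ℝ) + J * (Real.log (w31 β x)) ^ 3 *
        (3 / 4 : ℝ) ^ (Real.log J / (2 * Real.log (w31 β x)))
        + J / Real.log (ww x) * (1 + Real.log (1 + J / ww x)) := by
      have h4 : 0 ≤ Real.log (1 + (J : ℝ) / ww x) := Real.log_nonneg (by
        have : (0 : ℝ) ≤ (J : ℝ) / ww x := by positivity
        linarith)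
      positivity
    calc _ ≤ 2 * (C1 * Real.log z) / s * (5 * (J / LL x) * Lm lam) := mul_le_mul h1 h2 h3 (by positivity)
      _ = _ := by field_simp; ring
  -- the class
  have hqbig : Real.exp (9 / 10 * Real.log x) ≤ q := F.ylow.trans hqy
  set P1 := ∏ p ∈ (P (ww x)).filter (fun p => z < p), p with hP1
  have hP1pos : 0 < P1 := Finset.prod_pos (fun p hp => (mem_P.mp (Finset.mem_filter.mp hp).1).1.pos)
  have hP1le : (P1 : ℝ) ≤ Real.exp (3 / 10 * Real.log x) := by
    have h1 : (P1 : ℝ) ≤ (4 : ℝ) ^ (ww x) := by exact_mod_cast primorial_part_le z (ww x)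
    refine h1.trans ?_
    rw [← Real.rpow_natCast, Real.rpow_def_of_pos (by norm_num)]
    apply Real.exp_le_exp.mpr
    have h2 : Real.log 4 ≤ 3 / 2 := by
      rw [show (4 : ℝ) = 2 ^ 2 by norm_num, Real.log_pow]
      have := Real.log_two_lt_d9
      push_cast
      linarith
    have h3 := F.w5
    have h4 : (0 : ℝ) ≤ ww x := by positivity
    nlinarith
  set B := q / P1 with hBd
  have hBlow : Real.exp (3 / 5 * Real.log x) - 1 ≤ (B : ℝ) := by
    have h1 : (q : ℝ) / P1 < B + 1 := by
      have h2 := Nat.lt_div_mul_add hP1pos (a := q)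
      rw [div_lt_iff₀ (by exact_mod_cast hP1pos)]
      have h3 : q < (B + 1) * P1 := by rw [add_mul, one_mul]; exact h2
      exact_mod_cast h3
    have h2 : Real.exp (3 / 5 * Real.log x) ≤ (q : ℝ) / P1 := by
      rw [le_div_iff₀ (by exact_mod_cast hP1pos)]
      calc Real.exp (3 / 5 * Real.log x) * P1
          ≤ Real.exp (3 / 5 * Real.log x) * Real.exp (3 / 10 * Real.log x) :=
            mul_le_mul_of_nonneg_left hP1le (Real.exp_pos _).le
        _ = Real.exp (9 / 10 * Real.log x) := by rw [← Real.exp_add]; ring_nf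
        _ ≤ q := hqbig
    linarith
  have hBD : Real.exp (2 / 5 * Real.log x) * Real.log x ≤ (B : ℝ) := by
    have := F.Bexp
    linarith
  have hB1 : (1 : ℝ) ≤ B := by
    have h1 : 1 ≤ Real.exp (2 / 5 * Real.log x) := Real.one_le_exp (by positivity)
    nlinarith
  have hB0 : 0 < B := by exact_mod_cast (by linarith : (0 : ℝ) < B)
  obtain ⟨a, ha⟩ := exists_class_few z (ww x) (DD x) (y1 lam x) (NN x) q J T h (F.zw3.trans F.w3w) F.wy F.D2 F.Dy
    hq hyq (le_of_eq hJ.symm) hTN hT hB0
  refine ⟨a, ?_⟩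
  set A := ((T.filter (fun n => (q : ℤ) ∣ n - a)).card : ℝ) with hA
  set W := ∏ p ∈ P (ww x), (1 - 1 / (p : ℝ)) with hW
  have hlD0 : 0 < Real.log (DD x) := lt_of_lt_of_le (by positivity) F.lD
  have h2w : 2 ≤ ww x := (F.z2.trans F.zw3).trans F.w3w
  have hWlow : c2 / LL x ≤ W := by
    refine le_trans ?_ (hpg (ww x) h2w)
    apply div_le_div_of_nonneg_left hc2.le hlww F.lw'
  have hBr0 : (0 : ℝ) < B := by linarith
  have hD4 : (DD x : ℝ) ^ 4 ≤ B / Real.log (DD x) := by
    rw [le_div_iff₀ hlD0]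
    calc (DD x : ℝ) ^ 4 * Real.log (DD x) ≤ Real.exp (2 / 5 * Real.log x) * Real.log x := by
          apply mul_le_mul F.D4 _ hlD0.le (Real.exp_pos _).le
          have := F.lD'
          linarith
      _ ≤ B := hBD
  have h1 : A * (c2 / LL x * B) ≤ (R.card : ℝ) * (3 * B / Real.log (DD x)) := by
    calc A * (c2 / LL x * B) ≤ A * (W * B) := by
          apply mul_le_mul_of_nonneg_left _ (by positivity)
          exact mul_le_mul_of_nonneg_right hWlow hBr0.le
      _ ≤ (R.card : ℝ) * (2 * B / Real.log (DD x) + (DD x : ℝ) ^ 4) := ha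
      _ ≤ (R.card : ℝ) * (3 * B / Real.log (DD x)) := by
          apply mul_le_mul_of_nonneg_left _ (by positivity)
          have e : 3 * (B : ℝ) / Real.log (DD x) = 2 * B / Real.log (DD x) + B / Real.log (DD x) := by ring
          rw [e]
          linarith
  have h2 : A ≤ (R.card : ℝ) * (3 / Real.log (DD x)) * (LL x / c2) := by
    have h3 : A * (c2 / LL x * B) * (LL x / c2 / B) ≤ (R.card : ℝ) * (3 * B / Real.log (DD x)) * (LL x / c2 / B) :=
      mul_le_mul_of_nonneg_right h1 (by positivity)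
    calc A = A * (c2 / LL x * B) * (LL x / c2 / B) := by field_simp
      _ ≤ _ := h3
      _ = _ := by field_simp
  have h3 : 3 / Real.log (DD x) ≤ 60 / Real.log x := by
    rw [div_le_div_iff₀ hlD0 hL0]
    have := F.lD
    linarith
  calc A ≤ (R.card : ℝ) * (3 / Real.log (DD x)) * (LL x / c2) := h2
    _ ≤ (10 * C1 * Real.log z * (J * Lm lam / (s * LL x))) * (60 / Real.log x) * (LL x / c2) := by
        apply mul_le_mul_of_nonneg_right _ (by positivity)
        apply mul_le_mul hRle h3 (by positivity) (by positivity)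
    _ ≤ (10 * C1 * Real.log z * (2 * (x / q) * Lm lam / (s * LL x))) * (60 / Real.log x) * (LL x / c2) := by
        gcongr
    _ = (600 * C1 * 2 / c2) * Real.log z * (x * Lm lam / (s * Real.log x)) * (1 / q) := by
        field_simp
        ring
    _ ≤ _ := by
        apply mul_le_mul_of_nonneg_right _ (by positivity)
        apply mul_le_mul_of_nonneg_right _ (by positivity)
        apply mul_le_mul_of_nonneg_right _ hlz.le
        have : 0 ≤ 600 * C1 * 2 / c2 := by positivity
        linarith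

theorem loss_all : ∃ C : ℝ, 0 < C ∧ ∀ (z : ℕ) (β lam x : ℝ), Facts1 z β lam x → ∀ T : Finset ℤ,
    (∀ n ∈ T, -(NN x : ℤ) ≤ n ∧ n ≤ NN x) → (∀ n ∈ T, ∀ p ∈ P (y1 lam x), z < p → ¬ (p : ℤ) ∣ n) →
    ∃ T' : Finset ℤ, T' ⊆ T ∧ (∀ q : ℕ, q.Prime → y1 lam x < q → q ≤ KK x → ∃ r : ℤ, ∀ n ∈ T', ¬ (q : ℤ) ∣ n - r) ∧
      (T.card : ℝ) - C * (Real.log z * (Lm lam) ^ 2 / (LL x) ^ β) * (x / (Real.log x) ^ 2) ≤ (T'.card : ℝ) := by
  classical
  obtain ⟨C1, hC1, h1⟩ := loss_one
  obtain ⟨C2, hC2, h2⟩ := sum_recip_le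
  refine ⟨C1 * (2 * (1 + C2)), by positivity, ?_⟩
  intro z β lam x F T hTN hT
  have hL := F.L100
  have hL0 : 0 < Real.log x := by linarith
  have hx0 : 0 < x := by linarith [F.x4]
  have hv0 : 0 < LL x := by linarith [F.v4]
  have hlam1 := F.lam1
  have hlam0 : 0 < lam := by linarith
  have hlz : 0 < Real.log z := Real.log_pos (by
    have := F.z2
    exact_mod_cast (by omega : 1 < z))
  set s := (LL x) ^ β with hs
  have hs0 : 0 < s := by rw [hs]; positivity
  have hLam1 : 1 ≤ Lm lam := Lm_ge hlam1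
  have hex : ∀ q : ℕ, ∃ a : ℤ, q.Prime → y1 lam x < q → q ≤ KK x →
      ((T.filter (fun n => (q : ℤ) ∣ n - a)).card : ℝ) ≤
        C1 * Real.log z * (x * Lm lam / (s * Real.log x)) * (1 / q) := by
    intro q
    by_cases hq : q.Prime ∧ y1 lam x < q ∧ q ≤ KK x
    · obtain ⟨a, ha⟩ := h1 z β lam x F T hTN hT q hq.1 hq.2.1 hq.2.2
      exact ⟨a, fun _ _ _ => ha⟩
    · exact ⟨0, fun h h' h'' => absurd ⟨h, h', h''⟩ hq⟩
  choose a ha using hex
  set QL := (P (KK x)).filter (fun q => y1 lam x < q) with hQL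
  refine ⟨T.filter (fun n => ∀ q ∈ QL, ¬ (q : ℤ) ∣ n - a q), Finset.filter_subset _ _, ?_, ?_⟩
  · intro q hq hyq hqK
    refine ⟨a q, ?_⟩
    intro n hn
    exact (Finset.mem_filter.mp hn).2 q (Finset.mem_filter.mpr ⟨mem_P.mpr ⟨hq, hqK⟩, hyq⟩)
  · have hsub : T ⊆ T.filter (fun n => ∀ q ∈ QL, ¬ (q : ℤ) ∣ n - a q) ∪
        QL.biUnion (fun q => T.filter (fun n => (q : ℤ) ∣ n - a q)) := by
      intro n hn
      rw [Finset.mem_union, Finset.mem_biUnion]
      by_cases h : ∀ q ∈ QL, ¬ (q : ℤ) ∣ n - a q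
      · exact Or.inl (Finset.mem_filter.mpr ⟨hn, h⟩)
      · push Not at h
        obtain ⟨q, hq, hd⟩ := h
        exact Or.inr ⟨q, hq, Finset.mem_filter.mpr ⟨hn, hd⟩⟩
    have h3 : (T.card : ℝ) ≤ ((T.filter (fun n => ∀ q ∈ QL, ¬ (q : ℤ) ∣ n - a q)).card : ℝ) +
        ∑ q ∈ QL, ((T.filter (fun n => (q : ℤ) ∣ n - a q)).card : ℝ) := by
      have h4 := (Finset.card_le_card hsub).trans (Finset.card_union_le _ _)
      have h5 := h4.trans (Nat.add_le_add_left Finset.card_biUnion_le _)
      exact_mod_cast h5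
    have h4 : ∑ q ∈ QL, ((T.filter (fun n => (q : ℤ) ∣ n - a q)).card : ℝ) ≤
        C1 * Real.log z * (x * Lm lam / (s * Real.log x)) * ∑ q ∈ QL, (1 : ℝ) / q := by
      rw [Finset.mul_sum]
      apply Finset.sum_le_sum
      intro q hq
      rw [hQL, Finset.mem_filter, mem_P] at hq
      exact ha q hq.1.1 hq.2 hq.1.2
    have hly := F.ly
    have hly0 : 0 < Real.log (y1 lam x) := by linarith
    have h5 : ∑ q ∈ QL, (1 : ℝ) / q ≤ 2 * (1 + C2) * Lm lam / Real.log x := by
      by_cases hyK : y1 lam x ≤ KK x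
      · have h6 := h2 (y1 lam x) (KK x) (F.D2.trans F.Dy) hyK
        refine h6.trans ?_
        have hy0 : (0 : ℝ) < y1 lam x := by
          have := F.D2.trans F.Dy
          exact_mod_cast (by omega : 0 < y1 lam x)
        have hK0 : (0 : ℝ) < KK x := lt_of_lt_of_le hy0 (by exact_mod_cast hyK)
        have hlK : Real.log (KK x) - Real.log (y1 lam x) ≤ Lm lam - 1 := by
          have e1 : Real.log (KK x) ≤ Real.log (8 * x / Real.log x) :=
            Real.log_le_log hK0 (Nat.floor_le (by positivity))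
          have e2 : Real.log (x / (lam * Real.log x)) ≤ Real.log (y1 lam x) :=
            Real.log_le_log (by positivity) (Nat.le_ceil _)
          have e3 : Real.log (8 * x / Real.log x) - Real.log (x / (lam * Real.log x)) =
              Real.log (8 * lam) := by
            rw [← Real.log_div (by positivity) (by positivity)]
            congr 1
            field_simp
          have e4 : Real.log (8 * lam) ≤ Real.log (1 + 12 * lam) := by
            apply Real.log_le_log (by positivity)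
            linarith
          unfold Lm
          linarith
        have hlogK0 : 0 < Real.log (KK x) := by
          have : Real.log (y1 lam x) ≤ Real.log (KK x) := Real.log_le_log hy0 (by exact_mod_cast hyK)
          linarith
        have h7 : Real.log (Real.log (KK x) / Real.log (y1 lam x)) ≤ (Lm lam - 1) / Real.log (y1 lam x) := by
          have h8 := Real.log_le_sub_one_of_pos (show 0 < Real.log (KK x) / Real.log (y1 lam x) by positivity)
          refine h8.trans ?_
          have e : Real.log (KK x) / Real.log (y1 lam x) - 1 =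
              (Real.log (KK x) - Real.log (y1 lam x)) / Real.log (y1 lam x) := by
            field_simp
          rw [e]
          exact div_le_div_of_nonneg_right hlK hly0.le
        calc _ ≤ (Lm lam - 1) / Real.log (y1 lam x) + C2 / Real.log (y1 lam x) := by linarith
          _ = (Lm lam - 1 + C2) / Real.log (y1 lam x) := by ring
          _ ≤ ((1 + C2) * Lm lam) / Real.log (y1 lam x) := by
              apply div_le_div_of_nonneg_right _ hly0.le
              nlinarith
          _ ≤ ((1 + C2) * Lm lam) / (Real.log x / 2) := by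
              apply div_le_div_of_nonneg_left (by positivity) (by positivity) hly
          _ = _ := by ring
      · have hem : QL = ∅ := by
          rw [hQL, Finset.filter_eq_empty_iff]
          intro q hq
          rw [mem_P] at hq
          omega
        rw [hem, Finset.sum_empty]
        positivity
    have h6 : C1 * Real.log z * (x * Lm lam / (s * Real.log x)) * ∑ q ∈ QL, (1 : ℝ) / q ≤
        C1 * Real.log z * (x * Lm lam / (s * Real.log x)) * (2 * (1 + C2) * Lm lam / Real.log x) :=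
      mul_le_mul_of_nonneg_left h5 (by positivity)
    have h7 : C1 * Real.log z * (x * Lm lam / (s * Real.log x)) * (2 * (1 + C2) * Lm lam / Real.log x) =
        C1 * (2 * (1 + C2)) * (Real.log z * (Lm lam) ^ 2 / s) * (x / (Real.log x) ^ 2) := by
      field_simp
    linarith

end

end Pool.Agent.H84.HR
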