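import Pool.Agent.H84.HR.Sum

/-!
# The excess of the largest admissible set over the prime counting function
-/

set_option autoImplicit false

open Finset Filter Topology Pool.Agent.H6.HR

namespace Pool.Agent.H84.HR

noncomputable section

/-- The sieving limit. -/
def zz (θ x : ℝ) : ℕ := ⌊(LL x) ^ θ⌋₊

/-- The ratio of the range of the large primes. -/
def lm (θ x : ℝ) : ℝ := (10 * LL x) ^ (P (zz θ x)).card * LL x

theorem tendsto_LL : Tendsto (fun x : ℝ => LL x) atTop atTop :=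
  Real.tendsto_log_atTop.comp Real.tendsto_log_atTop

theorem card_P_le (z : ℕ) : (P z).card ≤ z := by
  have h : P z ⊆ Finset.Icc 1 z := by
    intro p hp
    rw [mem_P] at hp
    rw [Finset.mem_Icc]
    exact ⟨hp.1.one_le, hp.2⟩
  have := Finset.card_le_card h
  simpa using this

theorem ev_log_ten (η c : ℝ) (hη : 0 < η) (hc : 0 < c) : ∀ᶠ v : ℝ in atTop, Real.log (10 * v) ≤ c * v ^ η := by
  have h := (isLittleO_log_rpow_atTop hη).bound (show (0 : ℝ) < c / 2 by positivity)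
  filter_upwards [h, eventually_ge_atTop 10] with v h1 h2
  rw [Real.norm_of_nonneg (Real.log_nonneg (by linarith)), Real.norm_of_nonneg (by positivity)] at h1
  rw [Real.log_mul (by norm_num) (by linarith)]
  have : Real.log 10 ≤ Real.log v := Real.log_le_log (by norm_num) h2
  linarith

/-- The size of `lm`. -/
theorem ev_lm (θ η : ℝ) (hθ : 0 < θ) (hη : 0 < η) : ∀ᶠ x : ℝ in atTop,
    1 ≤ lm θ x ∧ Lm (lm θ x) ≤ (LL x) ^ (θ + η) ∧ Real.log (lm θ x) ≤ (LL x) ^ (θ + η) := by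
  have h1 := tendsto_LL.eventually (ev_log_ten η (1 / 6) hη (by norm_num))
  have h2 := tendsto_LL.eventually ((tendsto_rpow_atTop (show 0 < θ + η by linarith)).eventually_ge_atTop 6)
  have h3 := tendsto_LL.eventually ((tendsto_rpow_atTop hθ).eventually_ge_atTop 1)
  filter_upwards [h1, h2, h3, ev_v 1] with x h1 h2 h3 h4
  set v := LL x with hv
  have hv0 : 0 < v := by linarith
  have hlog10 : 0 ≤ Real.log (10 * v) := Real.log_nonneg (by linarith)
  have hlam1 : 1 ≤ lm θ x := by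
    unfold lm
    rw [← hv]
    have h5 : 1 ≤ (10 * v) ^ (P (zz θ x)).card := one_le_pow₀ (by linarith)
    nlinarith
  have hcard : ((P (zz θ x)).card : ℝ) ≤ v ^ θ := by
    calc ((P (zz θ x)).card : ℝ) ≤ (zz θ x : ℝ) := by exact_mod_cast card_P_le _
      _ ≤ v ^ θ := Nat.floor_le (by positivity)
  have hloglam : Real.log (lm θ x) ≤ 2 * (v ^ θ * Real.log (10 * v)) := by
    unfold lm
    rw [← hv, Real.log_mul (by positivity) (by positivity), Real.log_pow]
    have h5 : Real.log v ≤ Real.log (10 * v) := Real.log_le_log hv0 (by linarith)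
    have h6 : ((P (zz θ x)).card : ℝ) * Real.log (10 * v) ≤ v ^ θ * Real.log (10 * v) :=
      mul_le_mul_of_nonneg_right hcard hlog10
    have h7 : 1 * Real.log (10 * v) ≤ v ^ θ * Real.log (10 * v) := mul_le_mul_of_nonneg_right h3 hlog10
    linarith
  have hkey : 2 * (v ^ θ * Real.log (10 * v)) ≤ 1 / 3 * v ^ (θ + η) := by
    rw [Real.rpow_add hv0]
    have h5 : 0 ≤ v ^ θ := by positivity
    have := mul_le_mul_of_nonneg_left h1 h5
    linarith
  refine ⟨hlam1, ?_, ?_⟩
  · have h5 : Lm (lm θ x) ≤ 1 + (Real.log 13 + Real.log (lm θ x)) := by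
      unfold Lm
      rw [← Real.log_mul (by norm_num) (by positivity)]
      have : Real.log (1 + 12 * lm θ x) ≤ Real.log (13 * lm θ x) := by
        apply Real.log_le_log (by positivity)
        linarith
      linarith
    have h6 : Real.log 13 ≤ 3 := by
      rw [Real.log_le_iff_le_exp (by norm_num)]
      have h7 := Real.exp_one_gt_d9
      have h8 : Real.exp 3 = Real.exp 1 * Real.exp 1 * Real.exp 1 := by
        rw [← Real.exp_add, ← Real.exp_add]
        norm_num
      rw [h8]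
      nlinarith [mul_pos (Real.exp_pos 1) (Real.exp_pos 1)]
    linarith
  · linarith

theorem ev_pow_small (c : ℝ) : ∀ᶠ x : ℝ in atTop, c * (LL x) ^ 2 ≤ Real.log x := by
  have h := isLittleO_log_rpow_atTop (show (0 : ℝ) < 1 / 4 by norm_num)
  have h1 := h.bound (show (0 : ℝ) < 1 by norm_num)
  have h2 := Real.tendsto_log_atTop.eventually h1
  have h3 := Real.tendsto_log_atTop.eventually
    ((tendsto_rpow_atTop (show (0 : ℝ) < 1 / 2 by norm_num)).eventually_ge_atTop |c|)
  filter_upwards [h2, h3, ev_L 1, ev_v 0] with x h2 h3 h4 h5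
  unfold LL at h5 ⊢
  set L := Real.log x with hL
  have hL0 : 0 < L := by linarith
  rw [Real.norm_of_nonneg h5, Real.norm_of_nonneg (by positivity), one_mul] at h2
  have h6 : Real.log L ^ 2 ≤ L ^ ((1 : ℝ) / 2) := by
    calc Real.log L ^ 2 ≤ (L ^ ((1 : ℝ) / 4)) ^ 2 := pow_le_pow_left₀ h5 h2 2
      _ = L ^ ((1 : ℝ) / 2) := by
          rw [← Real.rpow_natCast, ← Real.rpow_mul hL0.le]
          norm_num
  calc c * Real.log L ^ 2 ≤ |c| * Real.log L ^ 2 := mul_le_mul_of_nonneg_right (le_abs_self c) (by positivity)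
    _ ≤ L ^ ((1 : ℝ) / 2) * L ^ ((1 : ℝ) / 2) := mul_le_mul h3 h6 (by positivity) (by positivity)
    _ = L := by rw [← Real.rpow_add hL0]; norm_num

theorem prod_P_le (z : ℕ) : ∏ w ∈ P z, w ≤ 4 ^ z := by
  have h1 : ∏ p ∈ P z, p ∣ primorial z := by
    unfold primorial
    apply Finset.prod_dvd_prod_of_subset
    intro p hp
    rw [mem_P] at hp
    rw [Finset.mem_filter, Finset.mem_range]
    exact ⟨by omega, hp.1⟩
  exact (Nat.le_of_dvd (primorial_pos z) h1).trans (primorial_le_four_pow z)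

theorem ev_sq : ∀ᶠ x : ℝ in atTop, (Real.log x) ^ 2 ≤ x := by
  have h := Real.tendsto_log_atTop.eventually (ev_pow_exp 2 1 one_pos)
  filter_upwards [h, eventually_gt_atTop 0] with x h1 h2
  rw [one_mul, Real.exp_log h2] at h1
  exact h1

/-- The main estimate. -/
theorem main (δ : ℝ) (hδ : 0 < δ) (hδ8 : δ ≤ 1 / 8) : ∀ᶠ x : ℝ in atTop, ∃ S : Finset ℤ, 0 ∈ S ∧
    (∀ s ∈ S, 0 ≤ s ∧ (s : ℝ) < x) ∧
    (∀ q : ℕ, q.Prime → q ≤ S.card → ∃ r : ℤ, ∀ s ∈ S, ¬ ((q : ℤ) ∣ s - r)) ∧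
    (Nat.primeCounting ⌊x⌋₊ : ℝ) + (1 / 2 - 4 * δ) * Real.log (LL x) * (x / (Real.log x) ^ 2) < (S.card : ℝ) := by
  obtain ⟨C1, hC1, hstage⟩ := stage
  obtain ⟨C2, hC2, hsum⟩ := main_sum
  obtain ⟨K, hK, hbl⟩ := box_log
  obtain ⟨C3, hC3, hpi⟩ := Pool.Agent.H84.Pnt.pi_two
  set θ := 1 / 2 - δ with hθ
  set β := 1 - δ / 2 with hβ
  set η := δ / 2 with hη
  have hθ0 : 0 < θ := by rw [hθ]; linarith
  have hη0 : 0 < η := by rw [hη]; linarith
  have hfacts := facts1 β (by rw [hβ]; linarith) (by rw [hβ]; linarith)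
  have e1 := ev_lm θ η hθ0 hη0
  have e2 := tendsto_LL.eventually ((tendsto_rpow_atTop hθ0).eventually_ge_atTop 3)
  have e3 : ∀ᶠ x : ℝ in atTop, C1 * (LL x) ^ (-(δ / 2)) ≤ δ := by
    have h := (tendsto_rpow_neg_atTop (show 0 < δ / 2 by linarith)).eventually
      (gt_mem_nhds (show (0 : ℝ) < δ / C1 by positivity))
    filter_upwards [tendsto_LL.eventually h] with x hx
    have := mul_le_mul_of_nonneg_left hx.le hC1.le
    rw [mul_div_cancel₀ _ hC1.ne'] at this
    exact this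
  have e4 : ∀ᶠ x : ℝ in atTop, (K + C1 + C2 + C3 + 10) ≤ 2 * δ * Real.log (LL x) := by
    have h := (Real.tendsto_log_atTop.comp tendsto_LL).eventually_ge_atTop ((K + C1 + C2 + C3 + 10) / (2 * δ))
    filter_upwards [h] with x hx
    have := (div_le_iff₀ (by positivity)).mp hx
    simp only [Function.comp] at this
    linarith
  filter_upwards [hfacts, e1, e2, e3, e4, ev_pow_small 40, ev_v 4, ev_L (C2 + C3 + 100), ev_sq,
    eventually_ge_atTop 4] with x hfacts e1 e2 e3 e4 e5 e6 e7 e8 e9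
  obtain ⟨hlam1, hLm, hloglam⟩ := e1
  set v := LL x with hv
  set L := Real.log x with hL
  set z := zz θ x with hz
  set lam := lm θ x with hlam
  have hv0 : 0 < v := by linarith
  have hL0 : 0 < L := by linarith
  have hx0 : 0 < x := by linarith
  have hz2 : 2 ≤ z := by
    rw [hz]
    apply Nat.le_floor
    push_cast
    linarith
  have hzθ : (z : ℝ) ≤ v ^ θ := Nat.floor_le (by positivity)
  have hvθ : v ^ θ ≤ v := by
    calc v ^ θ ≤ v ^ (1 : ℝ) := Real.rpow_le_rpow_of_exponent_le (by linarith) (by rw [hθ]; linarith)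
      _ = v := Real.rpow_one v
  have hvθη : v ^ (θ + η) ≤ v := by
    calc v ^ (θ + η) ≤ v ^ (1 : ℝ) := Real.rpow_le_rpow_of_exponent_le (by linarith) (by rw [hθ, hη]; linarith)
      _ = v := Real.rpow_one v
  have hzv : (z : ℝ) ≤ v := hzθ.trans hvθ
  have F : Facts1 z β lam x := hfacts z lam hz2 hzv hlam1 (hloglam.trans hvθη)
  have hvL : v ≤ L := F.v_le
  have hlv0 : 0 ≤ Real.log v := Real.log_nonneg (by linarith)
  have hlvv : Real.log v ≤ v := by
    have := Real.log_le_sub_one_of_pos hv0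
    linarith
  have hPz : ∀ w ∈ P z, w.Prime := fun w hw => (mem_P.mp hw).1
  -- the exponent bound
  set V := ⌊10 * v⌋₊ - 1 with hV
  have hfl : 10 ≤ ⌊10 * v⌋₊ := Nat.le_floor (by push_cast; linarith)
  have hV1 : (V : ℝ) + 1 ≤ 10 * v := by
    have e : V + 1 = ⌊10 * v⌋₊ := by omega
    have e2 : (V : ℝ) + 1 = (⌊10 * v⌋₊ : ℝ) := by exact_mod_cast e
    rw [e2]
    exact Nat.floor_le (by linarith)
  have hV2 : 10 * v - 2 ≤ (V : ℝ) := by
    have e : V + 1 = ⌊10 * v⌋₊ := by omega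
    have e2 : (V : ℝ) + 1 = (⌊10 * v⌋₊ : ℝ) := by exact_mod_cast e
    have := Nat.lt_floor_add_one (10 * v)
    linarith
  have hVone : 1 ≤ V := by omega
  -- the total weight
  obtain ⟨hW1, hW2⟩ := sum_wt_ge hPz V
  set W := ∑ m ∈ box (P z) V, wt (P z) m with hW
  have hexpv : Real.exp v = L := by
    rw [hv]
    exact Real.exp_log hL0
  have h2V : L ^ 4 ≤ (2 : ℝ) ^ V := by
    have f1 : (2 : ℝ) ^ V = Real.exp (V * Real.log 2) := by
      rw [← Real.rpow_natCast, Real.rpow_def_of_pos (by norm_num), mul_comm]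
    have f2 : L ^ 4 = Real.exp (4 * v) := by
      rw [← hexpv, ← Real.exp_nat_mul]
      norm_num
    have h5 := Real.log_two_gt_d9
    rw [f1, f2]
    apply Real.exp_le_exp.mpr
    nlinarith
  have hWlow : 1 - 1 / L ^ 3 ≤ W := by
    refine le_trans ?_ hW1
    have f1 : ((P z).card : ℝ) ≤ L := by
      calc ((P z).card : ℝ) ≤ z := by exact_mod_cast card_P_le z
        _ ≤ L := hzv.trans hvL
    have f2 : ((2 : ℝ) ^ V)⁻¹ ≤ (L ^ 4)⁻¹ := inv_anti₀ (by positivity) h2V
    have f3 : ((P z).card : ℝ) * ((2 : ℝ) ^ V)⁻¹ ≤ 1 / L ^ 3 := by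
      calc ((P z).card : ℝ) * ((2 : ℝ) ^ V)⁻¹ ≤ L * (L ^ 4)⁻¹ := mul_le_mul f1 f2 (by positivity) hL0.le
        _ = 1 / L ^ 3 := by field_simp
    linarith
  -- the shifts
  have hs : ∀ m ∈ box (P z) V, Real.log (2 * m) ≤ L / 2 := by
    intro m hm
    obtain ⟨hm0, -, hmle⟩ := box_mem hPz hm
    have hmpos : (0 : ℝ) < m := by exact_mod_cast Nat.pos_of_ne_zero hm0
    have f1 : m ≤ (4 ^ z) ^ V := hmle.trans (Nat.pow_le_pow_left (prod_P_le z) V)
    have f2 : (m : ℝ) ≤ ((4 : ℝ) ^ z) ^ V := by exact_mod_cast f1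
    have f3 : Real.log m ≤ V * (z * Real.log 4) := by
      have := Real.log_le_log hmpos f2
      rwa [Real.log_pow, Real.log_pow] at this
    rw [Real.log_mul (by norm_num) hmpos.ne']
    have f4 := Real.log_two_lt_d9
    have f5 : Real.log 4 ≤ 3 / 2 := by
      rw [show (4 : ℝ) = 2 ^ 2 by norm_num, Real.log_pow]
      push_cast
      linarith
    have f6 : (z : ℝ) * Real.log 4 ≤ v * (3 / 2) := mul_le_mul hzv f5 (Real.log_nonneg (by norm_num)) hv0.le
    have f7 : (V : ℝ) * (z * Real.log 4) ≤ (10 * v) * (v * (3 / 2)) :=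
      mul_le_mul (by linarith) f6 (by positivity) (by linarith)
    nlinarith
  have hS := hsum z V x hx0 (by linarith) hs
  have hb := hbl z V hz2 hVone
  set D := ∑ m ∈ box (P z) V, wt (P z) m * Real.log (2 * m) with hD
  -- the logarithm of `z`
  have hz0 : (0 : ℝ) < z := by exact_mod_cast (by omega : 0 < z)
  have hlogz : θ * Real.log v - 1 ≤ Real.log z := by
    have f1 : v ^ θ / 2 ≤ z := by
      have := Nat.lt_floor_add_one (v ^ θ)
      have f2 : (⌊v ^ θ⌋₊ : ℝ) = z := rfl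
      rw [f2] at this
      linarith
    have f2 := Real.log_le_log (by positivity) f1
    rw [Real.log_div (by positivity) (by norm_num), Real.log_rpow hv0] at f2
    have := Real.log_two_lt_d9
    linarith
  have hlogz2 : Real.log z ≤ Real.log v := Real.log_le_log hz0 hzv
  have hlogz0 : 0 ≤ Real.log z := Real.log_nonneg (by exact_mod_cast (by omega : 1 ≤ z))
  set Y := x / L ^ 2 with hY
  have hY1 : 1 ≤ Y := by
    rw [hY, le_div_iff₀ (by positivity), one_mul]
    exact e8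
  have hY0 : 0 < Y := by linarith
  have hxL : x / L = Y * L := by rw [hY]; field_simp
  have hxL3 : x / L ^ 3 = Y / L := by rw [hY]; field_simp
  have hpi1 := (abs_le.mp (hpi x (by linarith))).2
  rw [← hL, ← hY, hxL, hxL3] at hpi1
  have hYL : C3 * (Y / L) ≤ C3 * Y := by
    apply mul_le_mul_of_nonneg_left _ hC3.le
    exact div_le_self hY0.le (by linarith)
  -- the loss
  have hloss : C1 * (Real.log z * (Lm lam) ^ 2 / v ^ β + 1 / v) ≤ δ * Real.log v + C1 := by
    have f1 : 0 ≤ Lm lam := by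
      have := Lm_ge hlam1
      linarith
    have f2 : (Lm lam) ^ 2 ≤ v ^ (2 * (θ + η)) := by
      calc (Lm lam) ^ 2 ≤ (v ^ (θ + η)) ^ 2 := pow_le_pow_left₀ f1 hLm 2
        _ = v ^ (2 * (θ + η)) := by
            rw [← Real.rpow_natCast, ← Real.rpow_mul hv0.le]
            norm_num
            ring_nf
    have f3 : (Lm lam) ^ 2 / v ^ β ≤ v ^ (-(δ / 2)) := by
      rw [div_le_iff₀ (by positivity), ← Real.rpow_add hv0]
      refine f2.trans (le_of_eq ?_)
      congr 1
      rw [hθ, hη, hβ]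
      ring
    have f4 : Real.log z * (Lm lam) ^ 2 / v ^ β ≤ Real.log v * v ^ (-(δ / 2)) := by
      rw [mul_div_assoc]
      exact mul_le_mul hlogz2 f3 (by positivity) hlv0
    have f5 : 1 / v ≤ 1 := by
      rw [div_le_one hv0]
      linarith
    calc C1 * (Real.log z * (Lm lam) ^ 2 / v ^ β + 1 / v) ≤ C1 * (Real.log v * v ^ (-(δ / 2)) + 1) :=
          mul_le_mul_of_nonneg_left (add_le_add f4 f5) hC1.le
      _ = (C1 * v ^ (-(δ / 2))) * Real.log v + C1 := by ring
      _ ≤ δ * Real.log v + C1 := by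
          have := mul_le_mul_of_nonneg_right e3 hlv0
          linarith
  -- the lower bound for the sum
  have hL3 : 1 / L ^ 3 ≤ 1 / L := by
    apply one_div_le_one_div_of_le hL0
    calc L = L ^ 1 := (pow_one L).symm
      _ ≤ L ^ 3 := pow_le_pow_right₀ (by linarith) (by norm_num)
  have h1L : 1 / L ≤ 1 := by
    rw [div_le_one hL0]
    linarith
  have hWL : Y * L - Y ≤ Y * L * W := by
    have f1 : 1 - W ≤ 1 / L := by linarith
    have f2 : Y * L * (1 - W) ≤ Y * L * (1 / L) := mul_le_mul_of_nonneg_left f1 (by positivity)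
    have f3 : Y * L * (1 / L) = Y := by field_simp
    rw [f3] at f2
    linarith
  have hWlog : Real.log z - K - 1 ≤ D := by
    refine le_trans ?_ hb
    rcases le_total K (Real.log z) with h | h
    · have f1 : 1 - W ≤ 1 / L := by linarith
      have f2 : (1 - W) * (Real.log z - K) ≤ 1 / L * L := by
        apply mul_le_mul f1 _ (by linarith) (by positivity)
        linarith
      rw [one_div_mul_cancel hL0.ne'] at f2
      linarith
    · have f2 : (1 - W) * (Real.log z - K) ≤ 0 :=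
        mul_nonpos_of_nonneg_of_nonpos (by linarith) (by linarith)
      linarith
  have hsumlow : Y * L + (Real.log z - K - 3 - C2) * Y + Y ≤
      x * (W / L + (W + D) / L ^ 2 - C2 * W / L ^ 3) := by
    have f0 : x * (W / L + (W + D) / L ^ 2 - C2 * W / L ^ 3) = Y * L * W + (W + D) * Y - C2 * W * (Y / L) := by
      have : x * (W / L + (W + D) / L ^ 2 - C2 * W / L ^ 3) = (x / L) * W + (W + D) * (x / L ^ 2) -
        C2 * W * (x / L ^ 3) := by ring
      rw [this, hxL3, hxL, ← hY]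
    rw [f0]
    have f1 : 1 - W ≤ 1 := by linarith
    have f2 : C2 * W * (Y / L) ≤ C2 * Y := by
      have f3 : Y / L ≤ Y := div_le_self hY0.le (by linarith)
      have f4 : C2 * W ≤ C2 := by
        have := mul_le_mul_of_nonneg_left hW2 hC2.le
        linarith
      exact mul_le_mul f4 f3 (by positivity) hC2.le
    have f5 : (1 - W) * Y ≤ 1 * Y := mul_le_mul_of_nonneg_right f1 hY0.le
    have f6 : (Real.log z - K - 1) * Y ≤ D * Y := mul_le_mul_of_nonneg_right hWlog hY0.le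
    linarith
  -- the choice of the cardinality
  set ℓ := Real.log v with hℓ
  set X := (Nat.primeCounting ⌊x⌋₊ : ℝ) + (1 / 2 - 4 * δ) * ℓ * Y with hX
  have hX0 : 0 ≤ X := by
    have : 0 ≤ (1 / 2 - 4 * δ) * ℓ * Y := by
      apply mul_nonneg (mul_nonneg (by linarith) hlv0) hY0.le
    positivity
  set t := ⌊X⌋₊ + 1 with ht
  have htX : (t : ℝ) ≤ X + 1 := by
    rw [ht]
    push_cast
    have := Nat.floor_le hX0
    linarith
  have hXt : X < t := by
    rw [ht]
    push_cast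
    exact Nat.lt_floor_add_one X
  have htK : t ≤ KK x := by
    unfold KK
    apply Nat.le_floor
    refine htX.trans ?_
    rw [← hL, mul_div_assoc, hxL]
    have f1 : ℓ * Y ≤ L * Y := mul_le_mul_of_nonneg_right (hlvv.trans hvL) hY0.le
    have f2 : (1 / 2 - 4 * δ) * ℓ * Y ≤ 1 * (ℓ * Y) := by
      rw [mul_assoc]
      apply mul_le_mul_of_nonneg_right (by linarith)
      positivity
    have f3 : 100 * Y ≤ L * Y := mul_le_mul_of_nonneg_right (by linarith) hY0.le
    have f4 : C3 * Y ≤ L * Y := mul_le_mul_of_nonneg_right (by linarith) hY0.le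
    rw [hX]
    nlinarith
  have htS : (t : ℝ) ≤ ∑ m ∈ box (P z) V, 2 * g z m * (Nat.primeCounting ⌊x / (2 * m)⌋₊ : ℝ) -
        C1 * (Real.log z * (Lm lam) ^ 2 / v ^ β + 1 / v) * Y := by
    have f1 : C1 * (Real.log z * (Lm lam) ^ 2 / v ^ β + 1 / v) * Y ≤ (δ * ℓ + C1) * Y :=
      mul_le_mul_of_nonneg_right hloss hY0.le
    have f2 : ((1 / 2 - 4 * δ) * ℓ + C3 + 1) * Y ≤ (Real.log z - K - 3 - C2 - δ * ℓ - C1) * Y := by
      apply mul_le_mul_of_nonneg_right _ hY0.le
      have f3 : θ * ℓ - δ * ℓ = (1 / 2 - 4 * δ) * ℓ + 2 * δ * ℓ := by rw [hθ]; ring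
      linarith
    have f4 : X ≤ Y * L + Y + C3 * Y + (1 / 2 - 4 * δ) * ℓ * Y := by
      rw [hX]
      linarith
    linarith
  obtain ⟨S, hS0, hS1, hS2, hS3⟩ := hstage z β lam x F V hV1 le_rfl t (by omega) htK htS
  refine ⟨S, hS0, hS1, hS2, ?_⟩
  rw [hS3]
  exact hXt

/-- **The excess over the prime counting function** is at least `(1/2 - ε) x log log log x / (log x) ^ 2`. -/
theorem excess (ε : ℝ) (hε : 0 < ε) : ∃ x₀ : ℝ, ∀ x : ℝ, x₀ ≤ x → ∃ S : Finset ℤ, 0 ∈ S ∧
    (∀ s ∈ S, 0 ≤ s ∧ (s : ℝ) < x) ∧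
    (∀ q : ℕ, q.Prime → q ≤ S.card → ∃ r : ℤ, ∀ s ∈ S, ¬ ((q : ℤ) ∣ s - r)) ∧
    (Nat.primeCounting ⌊x⌋₊ : ℝ) + (1 / 2 - ε) * x * Real.log (Real.log (Real.log x)) / (Real.log x) ^ 2 <
      (S.card : ℝ) := by
  set δ := min (ε / 4) (1 / 8) with hδ
  have hδ0 : 0 < δ := lt_min (by positivity) (by norm_num)
  have hδ1 : 4 * δ ≤ ε := by
    have := min_le_left (ε / 4) (1 / 8 : ℝ)
    linarith
  have h := (main δ hδ0 (min_le_right _ _)).and ((ev_v 1).and (eventually_ge_atTop 0))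
  obtain ⟨x₀, hx₀⟩ := h.exists_forall_of_atTop
  refine ⟨x₀, fun x hx => ?_⟩
  obtain ⟨⟨S, h1, h2, h3, h4⟩, h5, h6⟩ := hx₀ x hx
  refine ⟨S, h1, h2, h3, lt_of_le_of_lt ?_ h4⟩
  have h7 : 0 ≤ Real.log (LL x) := Real.log_nonneg h5
  have e : (1 / 2 - ε) * x * Real.log (Real.log (Real.log x)) / (Real.log x) ^ 2 =
      (1 / 2 - ε) * (Real.log (LL x) * (x / (Real.log x) ^ 2)) := by
    unfold LL
    ring
  rw [e, mul_assoc]
  have h8 : (1 / 2 - ε) * (Real.log (LL x) * (x / (Real.log x) ^ 2)) ≤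
      (1 / 2 - 4 * δ) * (Real.log (LL x) * (x / (Real.log x) ^ 2)) := by
    apply mul_le_mul_of_nonneg_right (by linarith)
    positivity
  linarith

end

end Pool.Agent.H84.HR
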