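import Pool.Agent.H84.HR.Cover
import Pool.Agent.H6.HR.Params

/-!
# The parameters, uniformly in the sieving limit
-/

set_option autoImplicit false

open Finset Filter Topology Pool.Agent.H6.HR

namespace Pool.Agent.H84.HR

noncomputable section

/-- The lower end of the range of large primes. -/
def y1 (lam x : ℝ) : ℕ := ⌈x / (lam * Real.log x)⌉₊

def w31 (β x : ℝ) : ℕ := ⌊Real.exp ((LL x) ^ β)⌋₊

def Lm (lam : ℝ) : ℝ := 1 + Real.log (1 + 12 * lam)

theorem evA (β : ℝ) (hβ1 : β < 1) : ∀ᶠ v : ℝ in atTop, v ^ β ≤ v - 2 := by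
  have h := (tendsto_rpow_atTop (show 0 < 1 - β by linarith)).eventually_ge_atTop 2
  filter_upwards [h, eventually_ge_atTop 4] with v h1 h2
  have hv : 0 < v := by linarith
  have e : v = v ^ β * v ^ (1 - β) := by
    rw [← Real.rpow_add hv]
    simp
  have h3 : 0 ≤ v ^ β := by positivity
  have h4 : 2 * v ^ β ≤ v := by
    calc 2 * v ^ β = v ^ β * 2 := by ring
      _ ≤ v ^ β * v ^ (1 - β) := mul_le_mul_of_nonneg_left h1 h3
      _ = v := e.symm
  linarith

theorem evB (β : ℝ) (hβ : 0 < β) : ∀ᶠ v : ℝ in atTop, Real.log v ≤ v ^ β / 2 := by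
  have h := (isLittleO_log_rpow_atTop hβ).bound (show (0 : ℝ) < 1 / 2 by norm_num)
  filter_upwards [h, eventually_ge_atTop 1] with v h1 h2
  rw [Real.norm_of_nonneg (Real.log_nonneg h2), Real.norm_of_nonneg (by positivity)] at h1
  linarith

theorem evC (β : ℝ) (hβ1 : β < 1) : ∀ᶠ v : ℝ in atTop, v ^ 4 * (3 / 4 : ℝ) ^ (v ^ (1 - β) / 4) ≤ 1 := by
  have hc : 0 < Real.log (4 / 3) / 4 := by
    have := Real.log_pos (show (1 : ℝ) < 4 / 3 by norm_num)
    positivity
  have h := (isLittleO_log_rpow_atTop (show 0 < 1 - β by linarith)).bound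
    (show (0 : ℝ) < Real.log (4 / 3) / 4 / 4 by positivity)
  filter_upwards [h, eventually_ge_atTop 1] with v h1 h2
  have hv : 0 < v := by linarith
  rw [Real.norm_of_nonneg (Real.log_nonneg h2), Real.norm_of_nonneg (by positivity)] at h1
  have e : (3 / 4 : ℝ) ^ (v ^ (1 - β) / 4) = Real.exp (-(Real.log (4 / 3) / 4 * v ^ (1 - β))) := by
    rw [Real.rpow_def_of_pos (by norm_num)]
    congr 1
    have : Real.log (3 / 4) = - Real.log (4 / 3) := by
      rw [← Real.log_inv]
      norm_num
    rw [this]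
    ring
  have e2 : v ^ 4 = Real.exp (4 * Real.log v) := by
    rw [mul_comm, ← Real.rpow_def_of_pos hv]
    norm_cast
  rw [e, e2, ← Real.exp_add]
  rw [Real.exp_le_one_iff]
  linarith

theorem evD : ∀ᶠ x : ℝ in atTop, 20 * LL x ≤ Real.log x := by
  have h := Real.isLittleO_log_id_atTop.bound (show (0 : ℝ) < 1 / 20 by norm_num)
  have h' := Real.tendsto_log_atTop.eventually h
  filter_upwards [h', ev_L 1, ev_v 0] with x h1 h2 h3
  unfold LL at h3 ⊢
  rw [Real.norm_of_nonneg h3, id, Real.norm_of_nonneg (by linarith)] at h1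
  linarith

/-- The facts about the parameters. -/
structure Facts1 (z : ℕ) (β lam x : ℝ) : Prop where
  β0 : 0 < β
  β1 : β < 1
  z2 : 2 ≤ z
  lam1 : 1 ≤ lam
  x4 : 4 ≤ x
  L100 : 100 ≤ Real.log x
  v4 : 4 ≤ LL x
  v_le : LL x ≤ Real.log x
  zw3 : z ≤ w31 β x
  w3w : w31 β x ≤ ww x
  wy : ww x ≤ y1 lam x
  D2 : 2 ≤ DD x
  Dy : DD x ≤ y1 lam x
  lw3 : (LL x) ^ β / 2 ≤ Real.log (w31 β x)
  lw3' : Real.log (w31 β x) ≤ (LL x) ^ β
  sv : (LL x) ^ β ≤ LL x
  lw : LL x / 2 ≤ Real.log (ww x)
  lw' : Real.log (ww x) ≤ LL x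
  w6 : Real.log x / 6 ≤ ww x
  w5 : (ww x : ℝ) ≤ Real.log x / 5
  lD : Real.log x / 20 ≤ Real.log (DD x)
  lD' : Real.log (DD x) ≤ Real.log x / 10
  D4 : ((DD x : ℕ) : ℝ) ^ 4 ≤ Real.exp (2 / 5 * Real.log x)
  v_sqrt : 4 * LL x ≤ √(Real.log x)
  decay : (LL x) ^ 4 * (3 / 4 : ℝ) ^ ((LL x) ^ (1 - β) / 4) ≤ 1
  lamL : lam * Real.log x ≤ Real.exp (Real.log x / 10)
  ylow : Real.exp (9 / 10 * Real.log x) ≤ y1 lam x
  Bexp : Real.exp (2 / 5 * Real.log x) * Real.log x + 1 ≤ Real.exp (3 / 5 * Real.log x)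
  ly : Real.log x / 2 ≤ Real.log (y1 lam x)

theorem facts1 (β : ℝ) (hβ0 : 0 < β) (hβ1 : β < 1) : ∀ᶠ x : ℝ in atTop, ∀ z : ℕ, ∀ lam : ℝ, 2 ≤ z →
    (z : ℝ) ≤ LL x → 1 ≤ lam → Real.log lam ≤ LL x → Facts1 z β lam x := by
  have hvt : Tendsto (fun x : ℝ => LL x) atTop atTop := Real.tendsto_log_atTop.comp Real.tendsto_log_atTop
  filter_upwards [eventually_ge_atTop 4, ev_L 100, ev_v 4, hvt.eventually (evA β hβ1), hvt.eventually (evB β hβ0),
    hvt.eventually (evC β hβ1), evD, ev4, ev6] with x hx hL hv hA hB hC hD h4 h6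
  intro z lam hz2 hzv hlam1 hlamv
  have hL0 : 0 < Real.log x := by linarith
  have hx0 : 0 < x := by linarith
  have hv0 : 0 < LL x := by linarith
  have hlam0 : 0 < lam := by linarith
  have hexpL : Real.exp (Real.log x) = x := Real.exp_log hx0
  have hexpv : Real.exp (LL x) = Real.log x := Real.exp_log hL0
  have hvL : LL x ≤ Real.log x := by linarith
  set s := (LL x) ^ β with hs
  have hs1 : 2 * Real.log (LL x) ≤ s := by linarith
  have hlv : 0 < Real.log (LL x) := Real.log_pos (by linarith)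
  have hlv1 : 1 ≤ Real.log (LL x) := by
    rw [← Real.log_exp 1]
    apply Real.log_le_log (Real.exp_pos _)
    have := Real.exp_one_lt_d9
    linarith
  have hs2 : 2 ≤ Real.exp (s / 2) := by
    have := Real.add_one_le_exp (s / 2)
    linarith
  have hse : Real.exp s = Real.exp (s / 2) * Real.exp (s / 2) := by
    rw [← Real.exp_add]; ring_nf
  have hw3low : Real.exp (s / 2) ≤ (w31 β x : ℝ) := by
    have h1 := Nat.lt_floor_add_one (Real.exp s)
    unfold w31
    nlinarith
  have hw3up : (w31 β x : ℝ) ≤ Real.exp s := Nat.floor_le (Real.exp_pos _).le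
  have hw32 : (2 : ℝ) ≤ (w31 β x : ℝ) := hs2.trans hw3low
  have hzw3 : (z : ℝ) ≤ w31 β x := by
    refine le_trans ?_ hw3low
    calc (z : ℝ) ≤ LL x := hzv
      _ = Real.exp (Real.log (LL x)) := (Real.exp_log hv0).symm
      _ ≤ _ := Real.exp_le_exp.mpr (by linarith)
  have hw5 : (ww x : ℝ) ≤ Real.log x / 5 := Nat.floor_le (by positivity)
  have hw6 : Real.log x / 6 ≤ ww x := by
    have h1 := Nat.lt_floor_add_one (Real.log x / 5)
    unfold ww
    linarith
  have hw0 : (0 : ℝ) < ww x := by linarith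
  have hsL : √(Real.log x) * √(Real.log x) = Real.log x := Real.mul_self_sqrt hL0.le
  have hsL10 : 10 ≤ √(Real.log x) := by
    rw [show (10 : ℝ) = √100 by rw [show (100 : ℝ) = 10 ^ 2 by norm_num, Real.sqrt_sq (by norm_num)]]
    exact Real.sqrt_le_sqrt hL
  have hlogsL : Real.log (√(Real.log x)) = LL x / 2 := Real.log_sqrt hL0.le
  have hD20 : Real.exp (Real.log x / 20) ≤ (DD x : ℝ) := by
    have h1 := Nat.lt_floor_add_one (Real.exp (Real.log x / 10))
    have h2 : 2 ≤ Real.exp (Real.log x / 20) := by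
      have := Real.add_one_le_exp (Real.log x / 20)
      linarith
    have h3 : Real.exp (Real.log x / 10) = Real.exp (Real.log x / 20) * Real.exp (Real.log x / 20) := by
      rw [← Real.exp_add]; ring_nf
    unfold DD
    nlinarith
  have hDup : (DD x : ℝ) ≤ Real.exp (Real.log x / 10) := Nat.floor_le (Real.exp_pos _).le
  have hD2 : (2 : ℝ) ≤ DD x := by
    have := Real.add_one_le_exp (Real.log x / 20)
    linarith
  have hlamL : lam * Real.log x ≤ Real.exp (Real.log x / 10) := by
    calc lam * Real.log x = Real.exp (Real.log lam) * Real.exp (LL x) := by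
          rw [Real.exp_log hlam0, hexpv]
      _ = Real.exp (Real.log lam + LL x) := by rw [Real.exp_add]
      _ ≤ _ := Real.exp_le_exp.mpr (by linarith)
  have hylow : Real.exp (9 / 10 * Real.log x) ≤ y1 lam x := by
    refine le_trans ?_ (Nat.le_ceil _)
    rw [le_div_iff₀ (by positivity)]
    calc Real.exp (9 / 10 * Real.log x) * (lam * Real.log x)
        ≤ Real.exp (9 / 10 * Real.log x) * Real.exp (Real.log x / 10) :=
          mul_le_mul_of_nonneg_left hlamL (Real.exp_pos _).le
      _ = Real.exp (Real.log x) := by rw [← Real.exp_add]; ring_nf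
      _ = x := hexpL
  have hexp1 : Real.exp (Real.log x / 10) ≤ Real.exp (9 / 10 * Real.log x) :=
    Real.exp_le_exp.mpr (by linarith)
  refine
    { β0 := hβ0
      β1 := hβ1
      z2 := hz2
      lam1 := hlam1
      x4 := hx
      L100 := hL
      v4 := hv
      v_le := hvL
      zw3 := by exact_mod_cast hzw3
      w3w := ?_
      wy := ?_
      D2 := by exact_mod_cast hD2
      Dy := ?_
      lw3 := ?_
      lw3' := ?_
      sv := by linarith
      lw := ?_
      lw' := ?_
      w6 := hw6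
      w5 := hw5
      lD := ?_
      lD' := ?_
      D4 := ?_
      v_sqrt := h4
      decay := hC
      lamL := hlamL
      ylow := hylow
      Bexp := h6
      ly := ?_ }
  · apply Nat.floor_le_floor
    calc Real.exp s ≤ Real.exp (LL x - 2) := Real.exp_le_exp.mpr hA
      _ = Real.log x / Real.exp 2 := by rw [Real.exp_sub, hexpv]
      _ ≤ Real.log x / 5 := by
          apply div_le_div_of_nonneg_left hL0.le (by norm_num)
          have h7 := Real.quadratic_le_exp_of_nonneg (show (0 : ℝ) ≤ 2 by norm_num)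
          linarith
  · have : (ww x : ℝ) ≤ y1 lam x := by
      have h7 := Real.add_one_le_exp (9 / 10 * Real.log x)
      linarith
    exact_mod_cast this
  · have : (DD x : ℝ) ≤ y1 lam x := by linarith
    exact_mod_cast this
  · calc s / 2 = Real.log (Real.exp (s / 2)) := (Real.log_exp _).symm
      _ ≤ _ := Real.log_le_log (Real.exp_pos _) hw3low
  · calc Real.log (w31 β x) ≤ Real.log (Real.exp s) := Real.log_le_log (by linarith) hw3up
      _ = _ := Real.log_exp _
  · rw [← hlogsL]
    apply Real.log_le_log (by positivity)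
    nlinarith
  · have h7 : Real.log (ww x) ≤ Real.log (Real.log x) := Real.log_le_log hw0 (by linarith)
    exact h7
  · calc Real.log x / 20 = Real.log (Real.exp (Real.log x / 20)) := (Real.log_exp _).symm
      _ ≤ _ := Real.log_le_log (Real.exp_pos _) hD20
  · calc Real.log (DD x) ≤ Real.log (Real.exp (Real.log x / 10)) := Real.log_le_log (by linarith) hDup
      _ = _ := Real.log_exp _
  · calc ((DD x : ℕ) : ℝ) ^ 4 ≤ (Real.exp (Real.log x / 10)) ^ 4 := by
          apply pow_le_pow_left₀ (by positivity) hDup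
      _ = Real.exp (2 / 5 * Real.log x) := by
          rw [← Real.exp_nat_mul]
          congr 1
          push_cast
          ring
  · calc Real.log x / 2 ≤ 9 / 10 * Real.log x := by linarith
      _ = Real.log (Real.exp (9 / 10 * Real.log x)) := (Real.log_exp _).symm
      _ ≤ _ := Real.log_le_log (Real.exp_pos _) hylow

end

end Pool.Agent.H84.HR
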