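import Pool.Agent.H84.HR.Loss
import Pool.Agent.H6.HR.StageA

/-!
# Large admissible sets, uniformly in the sieving limit
-/

set_option autoImplicit false

open Finset Filter Topology Pool.Agent.H6.HR

namespace Pool.Agent.H84.HR

noncomputable section

/-- **Large admissible sets.** -/
theorem stage : ∃ C : ℝ, 0 < C ∧ ∀ (z : ℕ) (β lam x : ℝ), Facts1 z β lam x → ∀ V : ℕ, (V : ℝ) + 1 ≤ 10 * LL x →
    (10 * LL x) ^ (P z).card * LL x ≤ lam →
    ∀ t : ℕ, 1 ≤ t → t ≤ KK x →
      (t : ℝ) ≤ ∑ m ∈ box (P z) V, 2 * g z m * (Nat.primeCounting ⌊x / (2 * m)⌋₊ : ℝ) -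
        C * (Real.log z * (Lm lam) ^ 2 / (LL x) ^ β + 1 / LL x) * (x / (Real.log x) ^ 2) →
      ∃ S : Finset ℤ, 0 ∈ S ∧ (∀ s ∈ S, 0 ≤ s ∧ (s : ℝ) < x) ∧
        (∀ q : ℕ, q.Prime → q ≤ S.card → ∃ r : ℤ, ∀ s ∈ S, ¬ ((q : ℤ) ∣ s - r)) ∧ S.card = t := by
  classical
  obtain ⟨C, hC, hloss⟩ := loss_all
  obtain ⟨Cp, hCp, hpi⟩ := pi_le
  refine ⟨C + 2 * (1 + 4 * Cp), by positivity, ?_⟩
  intro z β lam x F V hV hlamV t ht1 htK ht
  have hL := F.L100
  have hL0 : 0 < Real.log x := by linarith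
  have hx0 : 0 < x := by linarith [F.x4]
  have hv0 : 0 < LL x := by linarith [F.v4]
  have hlam1 := F.lam1
  have hlam0 : 0 < lam := by linarith
  have hlz : 0 < Real.log z := Real.log_pos (by
    have := F.z2
    exact_mod_cast (by omega : 1 < z))
  set s := (LL x) ^ β with hs
  have hs0 : 0 < s := by rw [hs]; positivity
  have hPz : ∀ w ∈ P z, w.Prime := fun w hw => (mem_P.mp hw).1
  have hbox : ∀ m ∈ box (P z) V, m ≠ 0 ∧ ∀ p ∈ m.primeFactors, p ≤ z := by
    intro m hm
    obtain ⟨h1, h2, -⟩ := box_mem hPz hm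
    exact ⟨h1, fun p hp => (mem_P.mp (h2 p hp)).2⟩
  have hzy : z ≤ y1 lam x := F.zw3.trans (F.w3w.trans F.wy)
  obtain ⟨c, T, hTN, hTc, hTp, hTcard⟩ := exists_T z (y1 lam x) (NN x) (box (P z) V) hbox hzy
  obtain ⟨T', hT'T, hT'q, hT'card⟩ := hloss z β lam x F T hTN hTp
  -- every prime up to `K` is fine
  have hall : ∀ q : ℕ, q.Prime → q ≤ KK x → ∃ r : ℤ, ∀ n ∈ T', ¬ (q : ℤ) ∣ n - r := by
    intro q hq hqK
    rcases Nat.lt_or_ge (y1 lam x) q with h | h
    · exact hT'q q hq h hqK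
    · rcases Nat.lt_or_ge z q with h' | h'
      · refine ⟨0, fun n hn => ?_⟩
        rw [sub_zero]
        exact hTp n (hT'T hn) q (mem_P.mpr ⟨hq, h⟩) h'
      · exact ⟨c q, fun n hn => hTc n (hT'T hn) q (mem_P.mpr ⟨hq, h'⟩)⟩
  have hNx : 2 * (NN x : ℝ) < x := by
    unfold NN
    have h1 : 0 < ⌈x / 2⌉₊ := Nat.ceil_pos.mpr (by linarith)
    have h2 := Nat.ceil_lt_add_one (show 0 ≤ x / 2 by linarith)
    rw [Nat.cast_sub h1]
    push_cast
    linarith
  -- the size
  have hfloor : ∀ m ∈ box (P z) V, (Nat.primeCounting ⌊x / (2 * m)⌋₊ : ℝ) ≤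
      (Nat.primeCounting (NN x / m) : ℝ) + 1 := by
    intro m hm
    have hm0 : 0 < m := Nat.pos_of_ne_zero (hbox m hm).1
    have hm0' : (0 : ℝ) < m := by exact_mod_cast hm0
    have h1 : ⌊x / (2 * m)⌋₊ ≤ NN x / m + 1 := by
      have h2 : x / (2 * m) ≤ ((NN x + 1 : ℕ) : ℝ) / m := by
        rw [div_le_div_iff₀ (by positivity) hm0']
        have h3 : x / 2 ≤ ((NN x + 1 : ℕ) : ℝ) := by
          unfold NN
          have h4 : 0 < ⌈x / 2⌉₊ := Nat.ceil_pos.mpr (by linarith)
          rw [Nat.sub_add_cancel h4]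
          exact Nat.le_ceil _
        nlinarith
      calc ⌊x / (2 * m)⌋₊ ≤ ⌊((NN x + 1 : ℕ) : ℝ) / m⌋₊ := Nat.floor_le_floor h2
        _ = (NN x + 1) / m := Nat.floor_div_eq_div _ _
        _ ≤ (NN x + m) / m := Nat.div_le_div_right (by omega)
        _ = NN x / m + 1 := Nat.add_div_right _ hm0
    have h2 : Nat.primeCounting ⌊x / (2 * m)⌋₊ ≤ Nat.primeCounting (NN x / m) + 1 :=
      (Nat.monotone_primeCounting h1).trans (primeCounting_succ_le _)
    exact_mod_cast h2
  have hlamL : 0 < lam * Real.log x := by positivity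
  have hpiy : 1 + (Nat.primeCounting (y1 lam x) : ℝ) ≤ (1 + 4 * Cp) * (x / (lam * (Real.log x) ^ 2)) := by
    have hy2 : (2 : ℝ) ≤ y1 lam x := by exact_mod_cast F.D2.trans F.Dy
    have h1 := hpi (y1 lam x) hy2
    rw [Nat.floor_natCast] at h1
    have h2 : (y1 lam x : ℝ) ≤ 2 * (x / (lam * Real.log x)) := by
      have h3 := Nat.ceil_lt_add_one (show 0 ≤ x / (lam * Real.log x) by positivity)
      have h4 : 1 ≤ x / (lam * Real.log x) := by
        by_contra hcon
        push Not at hcon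
        have h5 : y1 lam x ≤ 1 := by
          unfold y1
          rw [Nat.ceil_le]
          push_cast
          exact hcon.le
        have h6 := F.D2.trans F.Dy
        omega
      unfold y1
      linarith
    have hly0 : 0 < Real.log (y1 lam x) := Real.log_pos (by linarith)
    have h3 : (Nat.primeCounting (y1 lam x) : ℝ) ≤ 4 * Cp * (x / (lam * (Real.log x) ^ 2)) := by
      calc (Nat.primeCounting (y1 lam x) : ℝ) ≤ Cp * (y1 lam x) / Real.log (y1 lam x) := h1
        _ ≤ Cp * (2 * (x / (lam * Real.log x))) / (Real.log x / 2) := by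
            apply div_le_div₀ (by positivity) _ (by positivity) F.ly
            exact mul_le_mul_of_nonneg_left h2 hCp.le
        _ = _ := by field_simp; ring
    have h4 : 1 ≤ x / (lam * (Real.log x) ^ 2) := by
      rw [le_div_iff₀ (by positivity), one_mul]
      calc lam * (Real.log x) ^ 2 = (lam * Real.log x) * Real.log x := by ring
        _ ≤ Real.exp (Real.log x / 10) * Real.exp (Real.log x / 2) := by
            apply mul_le_mul F.lamL _ hL0.le (Real.exp_pos _).le
            have := Real.add_one_le_exp (Real.log x / 2)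
            have h5 := Real.quadratic_le_exp_of_nonneg (show 0 ≤ Real.log x / 2 by positivity)
            nlinarith
        _ = Real.exp (6 / 10 * Real.log x) := by rw [← Real.exp_add]; ring_nf
        _ ≤ Real.exp (Real.log x) := Real.exp_le_exp.mpr (by linarith)
        _ = x := Real.exp_log hx0
    linarith
  have hcardbox : ((box (P z) V).card : ℝ) ≤ (10 * LL x) ^ (P z).card := by
    rw [card_box hPz]
    push_cast
    exact pow_le_pow_left₀ (by positivity) hV _
  have hmain : ∑ m ∈ box (P z) V, 2 * g z m * (Nat.primeCounting ⌊x / (2 * m)⌋₊ : ℝ) -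
      2 * (1 + 4 * Cp) * (1 / LL x) * (x / (Real.log x) ^ 2) ≤ (T.card : ℝ) := by
    refine le_trans ?_ hTcard
    have h1 : ∑ m ∈ box (P z) V, 2 * g z m * (Nat.primeCounting ⌊x / (2 * m)⌋₊ : ℝ) ≤
        ∑ m ∈ box (P z) V, 2 * g z m * ((Nat.primeCounting (NN x / m) : ℝ) - Nat.primeCounting (y1 lam x)) +
        ∑ m ∈ box (P z) V, 2 * (1 + (Nat.primeCounting (y1 lam x) : ℝ)) := by
      rw [← Finset.sum_add_distrib]
      apply Finset.sum_le_sum
      intro m hm
      have e1 := hfloor m hm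
      have e2 := g_nonneg z m
      have e3 := g_le_one z m
      have e4 : (0 : ℝ) ≤ 1 + (Nat.primeCounting (y1 lam x) : ℝ) := by positivity
      nlinarith
    rw [Finset.sum_const, nsmul_eq_mul] at h1
    have h2 : ((box (P z) V).card : ℝ) * (2 * (1 + (Nat.primeCounting (y1 lam x) : ℝ))) ≤
        2 * (1 + 4 * Cp) * (1 / LL x) * (x / (Real.log x) ^ 2) := by
      have hcl : ((box (P z) V).card : ℝ) ≤ lam / LL x := by
        rw [le_div_iff₀ hv0]
        exact (mul_le_mul_of_nonneg_right hcardbox hv0.le).trans hlamV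
      calc ((box (P z) V).card : ℝ) * (2 * (1 + (Nat.primeCounting (y1 lam x) : ℝ)))
          ≤ (lam / LL x) * (2 * ((1 + 4 * Cp) * (x / (lam * (Real.log x) ^ 2)))) := by
            apply mul_le_mul hcl _ (by positivity) (by positivity)
            linarith
        _ = _ := by field_simp
    linarith
  have htT : t ≤ T'.card := by
    have h1 : (t : ℝ) ≤ (T'.card : ℝ) := by
      have e : (C + 2 * (1 + 4 * Cp)) * (Real.log z * (Lm lam) ^ 2 / s + 1 / LL x) * (x / (Real.log x) ^ 2) =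
        C * (Real.log z * (Lm lam) ^ 2 / s) * (x / (Real.log x) ^ 2) +
          2 * (1 + 4 * Cp) * (1 / LL x) * (x / (Real.log x) ^ 2) +
          (C * (1 / LL x) * (x / (Real.log x) ^ 2) + 2 * (1 + 4 * Cp) * (Real.log z * (Lm lam) ^ 2 / s) *
            (x / (Real.log x) ^ 2)) := by
        ring
      have h2 : 0 ≤ C * (1 / LL x) * (x / (Real.log x) ^ 2) + 2 * (1 + 4 * Cp) * (Real.log z * (Lm lam) ^ 2 / s) *
            (x / (Real.log x) ^ 2) := by positivity
      linarith
    exact_mod_cast h1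
  exact admissible_of T' hNx (fun n hn => hTN n (hT'T hn)) hall ht1 htT htK

end

end Pool.Agent.H84.HR
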