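import Pool.Agent.H84.HR.Stage
import Pool.Agent.H84.Pnt.Pi

/-!
# The main term, by the prime number theorem
-/

set_option autoImplicit false

open Finset Filter Topology Pool.Agent.H6.HR

namespace Pool.Agent.H84.HR

noncomputable section

theorem pi_shift : ∃ C : ℝ, 0 < C ∧ ∀ (x : ℝ) (m : ℕ), 1 ≤ m → 0 < x → 4 ≤ Real.log x →
    Real.log (2 * m) ≤ Real.log x / 2 →
    x / (2 * m) * (1 / Real.log x + (Real.log (2 * m) + 1) / (Real.log x) ^ 2 - C / (Real.log x) ^ 3) ≤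
      (Nat.primeCounting ⌊x / (2 * m)⌋₊ : ℝ) := by
  obtain ⟨C, hC, h⟩ := Pool.Agent.H84.Pnt.pi_two
  refine ⟨8 * C, by positivity, fun x m hm hx hL hs => ?_⟩
  have hm0 : (0 : ℝ) < m := by exact_mod_cast hm
  have hm1 : (1 : ℝ) ≤ m := by exact_mod_cast hm
  set L := Real.log x with hLd
  set s := Real.log (2 * m) with hsd
  set y := x / (2 * m) with hy
  have hL0 : 0 < L := by linarith
  have hs0 : 0 ≤ s := Real.log_nonneg (by linarith)
  have hy0 : 0 < y := by positivity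
  have hly : Real.log y = L - s := by
    rw [hy, Real.log_div hx.ne' (by positivity)]
  have hly2 : L / 2 ≤ Real.log y := by rw [hly]; linarith
  have hly0 : 0 < Real.log y := by linarith
  have hyL : Real.log y ≤ L := by rw [hly]; linarith
  have hy2 : 2 ≤ y := by
    have h1 : Real.exp 1 ≤ y := by
      rw [← Real.le_log_iff_exp_le hy0]
      linarith
    have := Real.exp_one_gt_d9
    linarith
  have h1 := (abs_le.mp (h y hy2)).1
  have h2 : 1 / L + s / L ^ 2 ≤ 1 / Real.log y := by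
    rw [hly, div_add_div _ _ hL0.ne' (by positivity), div_le_div_iff₀ (by positivity) (by linarith)]
    have h3 : 0 ≤ L * s ^ 2 := by positivity
    nlinarith
  have h3 : 1 / L ^ 2 ≤ 1 / Real.log y ^ 2 :=
    one_div_le_one_div_of_le (by positivity) (pow_le_pow_left₀ hly0.le hyL 2)
  have h4 : 1 / Real.log y ^ 3 ≤ 8 / L ^ 3 := by
    have h5 : (L / 2) ^ 3 ≤ Real.log y ^ 3 := pow_le_pow_left₀ (by positivity) hly2 3
    calc 1 / Real.log y ^ 3 ≤ 1 / (L / 2) ^ 3 := one_div_le_one_div_of_le (by positivity) h5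
      _ = 8 / L ^ 3 := by
          field_simp
          norm_num
  have h5 : y * (1 / L + s / L ^ 2) ≤ y / Real.log y := by
    calc y * (1 / L + s / L ^ 2) ≤ y * (1 / Real.log y) := mul_le_mul_of_nonneg_left h2 hy0.le
      _ = _ := by ring
  have h6 : y * (1 / L ^ 2) ≤ y / Real.log y ^ 2 := by
    calc y * (1 / L ^ 2) ≤ y * (1 / Real.log y ^ 2) := mul_le_mul_of_nonneg_left h3 hy0.le
      _ = _ := by ring
  have h7 : C * (y / Real.log y ^ 3) ≤ y * (8 * C / L ^ 3) := by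
    calc C * (y / Real.log y ^ 3) = C * y * (1 / Real.log y ^ 3) := by ring
      _ ≤ C * y * (8 / L ^ 3) := mul_le_mul_of_nonneg_left h4 (by positivity)
      _ = _ := by ring
  have e : y * (1 / L + (s + 1) / L ^ 2 - 8 * C / L ^ 3) =
      y * (1 / L + s / L ^ 2) + y * (1 / L ^ 2) - y * (8 * C / L ^ 3) := by ring
  rw [e]
  linarith

theorem main_sum : ∃ C : ℝ, 0 < C ∧ ∀ (z V : ℕ) (x : ℝ), 0 < x → 4 ≤ Real.log x →
    (∀ m ∈ box (P z) V, Real.log (2 * m) ≤ Real.log x / 2) →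
    x * ((∑ m ∈ box (P z) V, wt (P z) m) / Real.log x +
      ((∑ m ∈ box (P z) V, wt (P z) m) + ∑ m ∈ box (P z) V, wt (P z) m * Real.log (2 * m)) / (Real.log x) ^ 2 -
      C * (∑ m ∈ box (P z) V, wt (P z) m) / (Real.log x) ^ 3) ≤
    ∑ m ∈ box (P z) V, 2 * g z m * (Nat.primeCounting ⌊x / (2 * m)⌋₊ : ℝ) := by
  obtain ⟨C, hC, h⟩ := pi_shift
  refine ⟨C, hC, fun z V x hx hL hs => ?_⟩
  have hPz : ∀ w ∈ P z, w.Prime := fun w hw => (mem_P.mp hw).1
  have hL0 : 0 < Real.log x := by linarith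
  have e : x * ((∑ m ∈ box (P z) V, wt (P z) m) / Real.log x +
      ((∑ m ∈ box (P z) V, wt (P z) m) + ∑ m ∈ box (P z) V, wt (P z) m * Real.log (2 * m)) / (Real.log x) ^ 2 -
      C * (∑ m ∈ box (P z) V, wt (P z) m) / (Real.log x) ^ 3) =
      ∑ m ∈ box (P z) V, x * wt (P z) m * (1 / Real.log x + (Real.log (2 * m) + 1) / (Real.log x) ^ 2 -
        C / (Real.log x) ^ 3) := by
    have e1 : ∀ m ∈ box (P z) V, x * wt (P z) m * (1 / Real.log x + (Real.log (2 * m) + 1) / (Real.log x) ^ 2 -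
        C / (Real.log x) ^ 3) = (x / Real.log x + x / (Real.log x) ^ 2 - C * x / (Real.log x) ^ 3) * wt (P z) m +
        x / (Real.log x) ^ 2 * (wt (P z) m * Real.log (2 * m)) := by
      intro m _
      ring
    rw [Finset.sum_congr rfl e1, Finset.sum_add_distrib, ← Finset.mul_sum, ← Finset.mul_sum]
    ring
  rw [e]
  apply Finset.sum_le_sum
  intro m hm
  have hm0 := (box_mem hPz hm).1
  have hm1 : 1 ≤ m := Nat.one_le_iff_ne_zero.mpr hm0
  have hmr : (0 : ℝ) < m := by exact_mod_cast hm1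
  have h1 := h x m hm1 hx hL (hs m hm)
  have h2 : 0 ≤ 2 * g z m := by
    have := g_nonneg z m
    linarith
  calc x * wt (P z) m * (1 / Real.log x + (Real.log (2 * m) + 1) / (Real.log x) ^ 2 - C / (Real.log x) ^ 3)
      = 2 * g z m * (x / (2 * m) * (1 / Real.log x + (Real.log (2 * m) + 1) / (Real.log x) ^ 2 -
          C / (Real.log x) ^ 3)) := by
        have e2 : wt (P z) m = g z m / m := rfl
        rw [e2]
        field_simp
    _ ≤ _ := mul_le_mul_of_nonneg_left h1 h2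

/-- The logarithmic mean over the box. -/
theorem box_log : ∃ K : ℝ, 0 < K ∧ ∀ z V : ℕ, 2 ≤ z → 1 ≤ V →
    (∑ m ∈ box (P z) V, wt (P z) m) * (Real.log z - K) ≤ ∑ m ∈ box (P z) V, wt (P z) m * Real.log (2 * m) := by
  obtain ⟨K, hK, h⟩ := Pool.Agent.CoprimeSieve.mertens_first
  refine ⟨K + 1, by linarith, fun z V hz hV => ?_⟩
  have hPz : ∀ w ∈ P z, w.Prime := fun w hw => (mem_P.mp hw).1
  have h1 := sum_wt_log hPz V hV
  have h2 := (abs_le.mp (h z (by exact_mod_cast (by omega : 1 ≤ z)))).1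
  have h3 : Pool.Agent.CoprimeSieve.mE z = ∑ w ∈ P z, Real.log w / w := by
    unfold Pool.Agent.CoprimeSieve.mE
    rw [pr_eq]
  rw [h3] at h2
  have hW : 0 ≤ ∑ m ∈ box (P z) V, wt (P z) m := Finset.sum_nonneg (fun m _ => wt_nonneg hPz m)
  have h4 : ∑ m ∈ box (P z) V, wt (P z) m * Real.log m ≤ ∑ m ∈ box (P z) V, wt (P z) m * Real.log (2 * m) := by
    apply Finset.sum_le_sum
    intro m hm
    apply mul_le_mul_of_nonneg_left _ (wt_nonneg hPz m)
    have hm0 : (0 : ℝ) < m := by exact_mod_cast Nat.pos_of_ne_zero (box_mem hPz hm).1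
    apply Real.log_le_log hm0
    linarith
  refine le_trans ?_ (h1.trans h4)
  apply mul_le_mul_of_nonneg_left _ hW
  linarith

end

end Pool.Agent.H84.HR
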